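import Mathlib

set_option autoImplicit false

/-!
# The algebra `R_s`

`R_s = K ⊕ K^5 ⊕ K^5`, degree one part spanned by `a,b,c,d,e` (indices `0..4`), degree two part with basis
`a², ab, b², ae, be`, and multiplication determined by
`ac = ad = bc = bd = 0`, `c² = ae`, `d² = be`, `ce = a²`, `de = b²`, `cd = ab`, `e² = s ab`.
-/

namespace Pool.Agent.H58R2.LGQ

open MvPolynomial

/-- the multiplication `V × V → U` -/
def mu {K : Type*} [Field K] (s : K) (x y : Fin 5 → K) : Fin 5 → K :=
  ![x 0 * y 0 + (x 2 * y 4 + x 4 * y 2),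
    x 0 * y 1 + x 1 * y 0 + (x 2 * y 3 + x 3 * y 2) + s * (x 4 * y 4),
    x 1 * y 1 + (x 3 * y 4 + x 4 * y 3),
    x 0 * y 4 + x 4 * y 0 + x 2 * y 2,
    x 1 * y 4 + x 4 * y 1 + x 3 * y 3]

/-- the underlying type of `R_s` -/
def Alg (K : Type*) [Field K] (_s : K) : Type _ := K × (Fin 5 → K) × (Fin 5 → K)

section ring

variable {K : Type*} [Field K] {s : K}

instance : AddCommGroup (Alg K s) := inferInstanceAs (AddCommGroup (K × (Fin 5 → K) × (Fin 5 → K)))
instance : Module K (Alg K s) := inferInstanceAs (Module K (K × (Fin 5 → K) × (Fin 5 → K)))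

/-- constructor -/
def mkA (s : K) (r : K) (v u : Fin 5 → K) : Alg K s := (r, v, u)

/-- degree 0 part -/
def Alg.r (x : Alg K s) : K := x.1
/-- degree 1 part -/
def Alg.v (x : Alg K s) : Fin 5 → K := x.2.1
/-- degree 2 part -/
def Alg.u (x : Alg K s) : Fin 5 → K := x.2.2

@[simp] lemma mkA_r (r : K) (v u : Fin 5 → K) : (mkA s r v u).r = r := rfl
@[simp] lemma mkA_v (r : K) (v u : Fin 5 → K) : (mkA s r v u).v = v := rfl
@[simp] lemma mkA_u (r : K) (v u : Fin 5 → K) : (mkA s r v u).u = u := rfl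

@[ext] lemma Alg.ext {x y : Alg K s} (h1 : x.r = y.r) (h2 : x.v = y.v) (h3 : x.u = y.u) : x = y :=
  Prod.ext h1 (Prod.ext h2 h3)

@[simp] lemma add_r (x y : Alg K s) : (x + y).r = x.r + y.r := rfl
@[simp] lemma add_v (x y : Alg K s) : (x + y).v = x.v + y.v := rfl
@[simp] lemma add_u (x y : Alg K s) : (x + y).u = x.u + y.u := rfl
@[simp] lemma zero_r : (0 : Alg K s).r = 0 := rfl
@[simp] lemma zero_v : (0 : Alg K s).v = 0 := rfl
@[simp] lemma zero_u : (0 : Alg K s).u = 0 := rfl
@[simp] lemma neg_r (x : Alg K s) : (-x).r = -x.r := rfl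
@[simp] lemma neg_v (x : Alg K s) : (-x).v = -x.v := rfl
@[simp] lemma neg_u (x : Alg K s) : (-x).u = -x.u := rfl
@[simp] lemma sub_r (x y : Alg K s) : (x - y).r = x.r - y.r := rfl
@[simp] lemma sub_v (x y : Alg K s) : (x - y).v = x.v - y.v := rfl
@[simp] lemma sub_u (x y : Alg K s) : (x - y).u = x.u - y.u := rfl
@[simp] lemma smul_r (c : K) (x : Alg K s) : (c • x).r = c * x.r := rfl
@[simp] lemma smul_v (c : K) (x : Alg K s) : (c • x).v = c • x.v := rfl
@[simp] lemma smul_u (c : K) (x : Alg K s) : (c • x).u = c • x.u := rfl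

instance : Mul (Alg K s) :=
  ⟨fun x y => mkA s (x.r * y.r) (x.r • y.v + y.r • x.v) (x.r • y.u + y.r • x.u + mu s x.v y.v)⟩
instance : One (Alg K s) := ⟨mkA s 1 0 0⟩

@[simp] lemma mul_r (x y : Alg K s) : (x * y).r = x.r * y.r := rfl
@[simp] lemma mul_v (x y : Alg K s) : (x * y).v = x.r • y.v + y.r • x.v := rfl
@[simp] lemma mul_u (x y : Alg K s) : (x * y).u = x.r • y.u + y.r • x.u + mu s x.v y.v := rfl
@[simp] lemma one_r : (1 : Alg K s).r = 1 := rfl
@[simp] lemma one_v : (1 : Alg K s).v = 0 := rfl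
@[simp] lemma one_u : (1 : Alg K s).u = 0 := rfl

lemma mu_comm (x y : Fin 5 → K) : mu s x y = mu s y x := by
  funext i; fin_cases i <;> simp [mu] <;> ring

lemma mu_add_left (x y z : Fin 5 → K) : mu s (x + y) z = mu s x z + mu s y z := by
  funext i; fin_cases i <;> simp [mu] <;> ring

lemma mu_smul_left (c : K) (x z : Fin 5 → K) : mu s (c • x) z = c • mu s x z := by
  funext i; fin_cases i <;> simp [mu] <;> ring

lemma mu_add_right (x y z : Fin 5 → K) : mu s x (y + z) = mu s x y + mu s x z := by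
  funext i; fin_cases i <;> simp [mu] <;> ring

lemma mu_smul_right (c : K) (x z : Fin 5 → K) : mu s x (c • z) = c • mu s x z := by
  funext i; fin_cases i <;> simp [mu] <;> ring

@[simp] lemma mu_zero_left (x : Fin 5 → K) : mu s 0 x = 0 := by
  funext i; fin_cases i <;> simp [mu]

@[simp] lemma mu_zero_right (x : Fin 5 → K) : mu s x 0 = 0 := by
  funext i; fin_cases i <;> simp [mu]

lemma alg_mul_comm (x y : Alg K s) : x * y = y * x := by
  ext i
  · simp [mul_comm]
  · simp [add_comm]
  · simp only [mul_u, mu_comm x.v y.v, Pi.add_apply, Pi.smul_apply, smul_eq_mul]; ring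

lemma alg_mul_assoc (x y z : Alg K s) : x * y * z = x * (y * z) := by
  ext i
  · simp [mul_assoc]
  · simp; ring
  · simp only [mul_u, mul_v, mul_r, mu_add_left, mu_add_right, mu_smul_left, mu_smul_right, Pi.add_apply,
      Pi.smul_apply, smul_eq_mul]; ring

instance : CommRing (Alg K s) :=
  { (inferInstance : AddCommGroup (Alg K s)) with
    mul := (· * ·)
    one := 1
    left_distrib := fun x y z => by
      ext i
      · simp [mul_add]
      · simp; ring
      · simp only [mul_u, add_u, add_v, add_r, mu_add_right, Pi.add_apply, Pi.smul_apply, smul_eq_mul]; ring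
    right_distrib := fun x y z => by
      ext i
      · simp [add_mul]
      · simp; ring
      · simp only [mul_u, add_u, add_v, add_r, mu_add_left, Pi.add_apply, Pi.smul_apply, smul_eq_mul]; ring
    zero_mul := fun x => by ext i <;> simp
    mul_zero := fun x => by ext i <;> simp
    mul_assoc := alg_mul_assoc
    one_mul := fun x => by ext i <;> simp
    mul_one := fun x => by ext i <;> simp
    mul_comm := alg_mul_comm }

noncomputable instance : Algebra K (Alg K s) :=
  Algebra.ofModule
    (fun c x y => by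
      ext i
      · simp [mul_assoc]
      · simp; ring
      · simp only [mul_u, smul_u, smul_v, smul_r, mu_smul_left, Pi.add_apply, Pi.smul_apply, smul_eq_mul]; ring)
    (fun c x y => by
      ext i
      · simp; ring
      · simp; ring
      · simp only [mul_u, smul_u, smul_v, smul_r, mu_smul_right, Pi.add_apply, Pi.smul_apply, smul_eq_mul]; ring)

lemma algebraMap_eq (c : K) : algebraMap K (Alg K s) c = mkA s c 0 0 := by
  rw [Algebra.algebraMap_eq_smul_one]
  ext i <;> simp

instance : Nontrivial (Alg K s) := ⟨⟨0, 1, fun h => by simpa using congrArg Alg.r h⟩⟩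

end ring

section poly

variable {K : Type*} [Field K] (s : K)

/-- the images of the variables -/
def ev (i : Fin 5) : Alg K s := mkA s 0 (Pi.single i 1) 0

/-- the structure map `K[x_0..x_4] → R_s` -/
noncomputable def psi : MvPolynomial (Fin 5) K →ₐ[K] Alg K s := aeval (ev s)

@[simp] lemma psi_X (i : Fin 5) : psi s (X i) = ev s i := by simp [psi]

/-- the ten quadratic generators -/
noncomputable def gen : Fin 10 → MvPolynomial (Fin 5) K :=
  ![X 0 * X 2, X 0 * X 3, X 1 * X 2, X 1 * X 3, X 2 * X 2 - X 0 * X 4, X 3 * X 3 - X 1 * X 4,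
    X 2 * X 4 - X 0 * X 0, X 3 * X 4 - X 1 * X 1, X 2 * X 3 - X 0 * X 1, X 4 * X 4 - C s * (X 0 * X 1)]

lemma psi_gen (a : Fin 10) : psi s (gen s a) = 0 := by
  apply Alg.ext
  · fin_cases a <;> simp [gen, ev, psi, algebraMap_eq]
  · fin_cases a <;> simp [gen, ev, psi, algebraMap_eq]
  · funext i
    fin_cases a <;> fin_cases i <;> simp [gen, ev, psi, algebraMap_eq, mu]

end poly

end Pool.Agent.H58R2.LGQ
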