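import Pool.Agent.H58R2.LGQ.Quot

set_option autoImplicit false

/-! From a lift of `R_s` to a presentation satisfying `Hyp`. -/

namespace Pool.Agent.H58R2.LGQ

open MvPolynomial

section

variable {K : Type*} [Field K] {s : K} {m : ℕ} {J : Ideal (MvPolynomial (Fin m) K)}

lemma Yk_le_ker_rho (c k : ℕ) {f : MvPolynomial (Fin 5 ⊕ Fin c) K} (hf : f ∈ Yk K c k) : rho f = 0 := by
  have : Yk K c k ≤ RingHom.ker (rho (K := K) (c := c)) := by
    rw [Yk, Ideal.span_le]
    rintro _ ⟨j, _, rfl⟩
    exact rho_inr j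
  exact this hf

section pres

variable (ys : List (MvPolynomial (Fin m) K ⧸ J))
  (q : Fin 5 → MvPolynomial (Fin m) K) (Y : Fin ys.length → MvPolynomial (Fin m) K)

/-- the presentation map -/
noncomputable def Psi : MvPolynomial (Fin 5 ⊕ Fin ys.length) K →ₐ[K] MvPolynomial (Fin m) K :=
  aeval (Sum.elim q Y)

@[simp] lemma Psi_inl (i : Fin 5) : Psi ys q Y (X (Sum.inl i)) = q i := by simp [Psi]
@[simp] lemma Psi_inr (j : Fin ys.length) : Psi ys q Y (X (Sum.inr j)) = Y j := by simp [Psi]

lemma Psi_hom1 (hq : ∀ i, (q i).IsHomogeneous 1) (hY : ∀ j, (Y j).IsHomogeneous 1)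
    (i : Fin 5 ⊕ Fin ys.length) : (Psi ys q Y (X i)).IsHomogeneous 1 := by
  cases i with
  | inl i => rw [Psi_inl]; exact hq i
  | inr j => rw [Psi_inr]; exact hY j

/-- the induced map to the quotient -/
noncomputable def mkPsi : MvPolynomial (Fin 5 ⊕ Fin ys.length) K →+* (MvPolynomial (Fin m) K ⧸ J) :=
  (Ideal.Quotient.mk J).comp (Psi ys q Y).toRingHom

lemma mkPsi_apply (f : MvPolynomial (Fin 5 ⊕ Fin ys.length) K) :
    mkPsi ys q Y f = Ideal.Quotient.mk J (Psi ys q Y f) := rfl

/-- projection to the double quotient -/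
noncomputable def pr : MvPolynomial (Fin m) K →ₐ[K] ((MvPolynomial (Fin m) K ⧸ J) ⧸ Ideal.ofList ys) :=
  (Ideal.Quotient.mkₐ K (Ideal.ofList ys)).comp (Ideal.Quotient.mkₐ K J)

lemma pr_apply (f : MvPolynomial (Fin m) K) :
    pr ys f = Ideal.Quotient.mk (Ideal.ofList ys) (Ideal.Quotient.mk J f) := rfl

variable (φ : (MvPolynomial (Fin 5) K ⧸ genI s) ≃ₐ[K] ((MvPolynomial (Fin m) K ⧸ J) ⧸ Ideal.ofList ys))

lemma pr_Psi (hq : ∀ i, φ (Ideal.Quotient.mk (genI s) (X i)) = pr ys (q i))
    (hY : ∀ j : Fin ys.length, ys.get j = Ideal.Quotient.mk J (Y j))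
    (f : MvPolynomial (Fin 5 ⊕ Fin ys.length) K) :
    pr ys (Psi ys q Y f) = φ (Ideal.Quotient.mk (genI s) (rho f)) := by
  set R : MvPolynomial (Fin 5 ⊕ Fin ys.length) K →ₐ[K] ((MvPolynomial (Fin m) K ⧸ J) ⧸ Ideal.ofList ys) :=
    (φ.toAlgHom.comp (Ideal.Quotient.mkₐ K (genI s))).comp rho with hR
  have hRa : ∀ f, R f = φ (Ideal.Quotient.mk (genI s) (rho f)) := fun f => rfl
  have hPa : ∀ f, ((pr ys).comp (Psi ys q Y)) f = pr ys (Psi ys q Y f) := fun f => rfl
  have : (pr ys).comp (Psi ys q Y) = R := by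
    apply MvPolynomial.algHom_ext
    intro i
    rw [hRa, hPa]
    cases i with
    | inl i => rw [rho_inl, hq i, Psi_inl]
    | inr j =>
      rw [rho_inr, map_zero, map_zero, Psi_inr, pr_apply, ← hY j, Ideal.Quotient.eq_zero_iff_mem]
      exact Ideal.subset_span (List.get_mem ys j)
  rw [← hRa, ← this]
  rfl

lemma mem_take (hY : ∀ j : Fin ys.length, ys.get j = Ideal.Quotient.mk J (Y j)) (k : ℕ)
    {f : MvPolynomial (Fin 5 ⊕ Fin ys.length) K}
    (hf : f ∈ J.comap (Psi ys q Y) ⊔ Yk K ys.length k) :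
    Ideal.Quotient.mk J (Psi ys q Y f) ∈ Ideal.ofList (ys.take k) := by
  obtain ⟨g, hg, y, hy, rfl⟩ := Submodule.mem_sup.mp hf
  have hg' : Psi ys q Y g ∈ J := hg
  rw [map_add, map_add, Ideal.Quotient.eq_zero_iff_mem.mpr hg', zero_add]
  have : Yk K ys.length k ≤ (Ideal.ofList (ys.take k)).comap (mkPsi ys q Y) := by
    rw [Yk, Ideal.span_le]
    rintro _ ⟨j, hj, rfl⟩
    show Ideal.Quotient.mk J (Psi ys q Y (X (Sum.inr j))) ∈ Ideal.ofList (ys.take k)
    rw [Psi_inr, ← hY j]
    refine Ideal.subset_span (show ys.get j ∈ ys.take k from ?_)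
    rw [List.mem_take_iff_getElem]
    refine ⟨j.val, ?_, rfl⟩
    have := j.isLt
    omega
  exact this hy

lemma of_mem_take (hY : ∀ j : Fin ys.length, ys.get j = Ideal.Quotient.mk J (Y j)) (k : ℕ)
    (hsurj : Function.Surjective (Psi ys q Y))
    {f : MvPolynomial (Fin 5 ⊕ Fin ys.length) K}
    (hf : Ideal.Quotient.mk J (Psi ys q Y f) ∈ Ideal.ofList (ys.take k)) :
    f ∈ J.comap (Psi ys q Y) ⊔ Yk K ys.length k := by
  have h1 : Ideal.ofList (ys.take k) ≤ (Yk K ys.length k).map (mkPsi ys q Y) := by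
    rw [Ideal.ofList, Ideal.span_le]
    intro x hx
    have hx' : x ∈ ys.take k := hx
    rw [List.mem_take_iff_getElem] at hx'
    obtain ⟨j, hj, rfl⟩ := hx'
    have hj' : j < ys.length := by omega
    have : ys[j] = mkPsi ys q Y (X (Sum.inr ⟨j, hj'⟩)) := by
      rw [mkPsi_apply, Psi_inr, ← hY ⟨j, hj'⟩]
      rfl
    rw [this]
    apply Ideal.mem_map_of_mem
    exact Ideal.subset_span ⟨⟨j, hj'⟩, by simp; omega, rfl⟩
  have hs : Function.Surjective (mkPsi ys q Y) := by
    intro x
    obtain ⟨p, rfl⟩ := Ideal.Quotient.mk_surjective x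
    obtain ⟨f, rfl⟩ := hsurj p
    exact ⟨f, rfl⟩
  obtain ⟨y, hy, hye⟩ := (Ideal.mem_map_iff_of_surjective _ hs).mp (h1 hf)
  have h2 : f - y ∈ J.comap (Psi ys q Y) := by
    show Psi ys q Y (f - y) ∈ J
    rw [← Ideal.Quotient.eq_zero_iff_mem, map_sub, map_sub, sub_eq_zero]
    exact hye.symm
  have : f = (f - y) + y := by ring
  rw [this]
  exact Ideal.add_mem _ (Ideal.mem_sup_left h2) (Ideal.mem_sup_right hy)

lemma Psi_surj (hJ : ∀ f ∈ J, ∀ d, homogeneousComponent d f ∈ J)
    (hlow : ∀ f ∈ J, ∀ d ≤ 1, f.IsHomogeneous d → f = 0)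
    (hqh : ∀ i, (q i).IsHomogeneous 1) (hYh : ∀ j, (Y j).IsHomogeneous 1)
    (hq : ∀ i, φ (Ideal.Quotient.mk (genI s) (X i)) = pr ys (q i))
    (hY : ∀ j : Fin ys.length, ys.get j = Ideal.Quotient.mk J (Y j)) :
    Function.Surjective (Psi ys q Y) := by
  have hX : ∀ i, ∃ f, Psi ys q Y f = X i := by
    intro i
    obtain ⟨x, hx⟩ := φ.surjective (pr ys (X i))
    obtain ⟨p, rfl⟩ := Ideal.Quotient.mk_surjective x
    have h1 : pr ys (X i - Psi ys q Y (sg 0 p)) = 0 := by
      rw [map_sub, pr_Psi ys q Y φ hq hY, rho_sg, hx, sub_self]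
    rw [pr_apply, Ideal.Quotient.eq_zero_iff_mem] at h1
    have h2 : Ideal.ofList ys ≤ (Ideal.span (Set.range Y)).map (Ideal.Quotient.mk J) := by
      rw [Ideal.ofList, Ideal.span_le]
      intro x hx
      have hx' : x ∈ ys := hx
      obtain ⟨j, rfl⟩ := List.get_of_mem hx'
      rw [hY j]
      exact Ideal.mem_map_of_mem _ (Ideal.subset_span ⟨j, rfl⟩)
    obtain ⟨y, hy, hye⟩ := (Ideal.mem_map_iff_of_surjective _ Ideal.Quotient.mk_surjective).mp (h2 h1)
    rw [Ideal.mem_span_range_iff_exists_fun] at hy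
    obtain ⟨a, rfl⟩ := hy
    have h3 : X i - Psi ys q Y (sg 0 p) - ∑ j, a j * Y j ∈ J := by
      rw [← Ideal.Quotient.eq_zero_iff_mem, map_sub, hye, sub_self]
    have h4 := hlow _ (hJ _ h3 1) 1 le_rfl (homogeneousComponent_isHomogeneous _ _)
    have h5 : ∀ j, homogeneousComponent 1 (a j * Y j) = C (coeff 0 (a j)) * Y j := by
      intro j
      rw [mul_comm, show (1 : ℕ) = 1 + 0 from rfl, hc_mul (hYh j), homogeneousComponent_zero, mul_comm]
    rw [map_sub, map_sub, homogeneousComponent_eq_self (isHomogeneous_X K i),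
      hc_algHom _ (Psi_hom1 ys q Y hqh hYh), map_sum, Finset.sum_congr rfl (fun j _ => h5 j)] at h4
    refine ⟨homogeneousComponent 1 (sg 0 p) + ∑ j, C (coeff 0 (a j)) * X (Sum.inr j), ?_⟩
    rw [map_add, map_sum]
    have h6 : ∀ j, Psi ys q Y (C (coeff 0 (a j)) * X (Sum.inr j)) = C (coeff 0 (a j)) * Y j := by
      intro j
      rw [map_mul, Psi_inr]
      congr 1
      exact (Psi ys q Y).commutes _
    rw [Finset.sum_congr rfl (fun j _ => h6 j)]
    linear_combination (-1 : MvPolynomial (Fin m) K) * h4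
  choose g hg using hX
  intro p
  refine ⟨aeval g p, ?_⟩
  have : (Psi ys q Y).comp (aeval g) = AlgHom.id K _ := by
    apply MvPolynomial.algHom_ext
    intro i
    simp [hg]
  exact DFunLike.congr_fun this p

theorem build (hJ : ∀ f ∈ J, ∀ d, homogeneousComponent d f ∈ J)
    (hlow : ∀ f ∈ J, ∀ d ≤ 1, f.IsHomogeneous d → f = 0)
    (hqh : ∀ i, (q i).IsHomogeneous 1) (hYh : ∀ j, (Y j).IsHomogeneous 1)
    (hq : ∀ i, φ (Ideal.Quotient.mk (genI s) (X i)) = pr ys (q i))
    (hY : ∀ j : Fin ys.length, ys.get j = Ideal.Quotient.mk J (Y j))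
    (hreg : RingTheory.Sequence.IsRegular (MvPolynomial (Fin m) K ⧸ J) ys) :
    Hyp s (J.comap (Psi ys q Y)) := by
  have hsurj := Psi_surj ys q Y φ hJ hlow hqh hYh hq hY
  have hh1 := Psi_hom1 ys q Y hqh hYh
  have hred : ∀ f ∈ J.comap (Psi ys q Y), psi s (rho f) = 0 := by
    intro f hf
    have h1 : Psi ys q Y f ∈ J := hf
    have h2 : pr ys (Psi ys q Y f) = 0 := by
      rw [pr_apply, Ideal.Quotient.eq_zero_iff_mem.mpr h1, map_zero]
    rw [pr_Psi ys q Y φ hq hY, map_eq_zero_iff _ φ.injective, Ideal.Quotient.eq_zero_iff_mem,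
      mem_genI_iff] at h2
    exact h2
  have hregk : ∀ (k : Fin ys.length) (f), X (Sum.inr k) * f ∈ J.comap (Psi ys q Y) ⊔ Yk K ys.length k.val →
      f ∈ J.comap (Psi ys q Y) ⊔ Yk K ys.length k.val := by
    intro k f hf
    apply of_mem_take ys q Y hY _ hsurj
    have h1 := mem_take ys q Y hY _ hf
    rw [map_mul, map_mul, Psi_inr, ← hY k] at h1
    have h2 := hreg.toIsWeaklyRegular.regular_mod_prev k.val k.isLt
    have h3 : (Ideal.ofList (ys.take k.val) • ⊤ : Submodule (MvPolynomial (Fin m) K ⧸ J) (MvPolynomial (Fin m) K ⧸ J)) =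
        Ideal.ofList (ys.take k.val) := by simp
    rw [← h3]
    rw [← h3] at h1
    rw [← Submodule.Quotient.mk_eq_zero]
    rw [← Submodule.Quotient.mk_eq_zero] at h1
    apply h2
    simp only [smul_zero]
    rw [← h1, ← Submodule.Quotient.mk_smul]
    rfl
  refine ⟨?_, ?_, hregk, hred, ?_⟩
  · intro f hf d
    show Psi ys q Y (homogeneousComponent d f) ∈ J
    rw [← hc_algHom _ hh1]
    exact hJ _ hf d
  · intro f hf hf1
    have hr : rho f = 0 := by
      have h1 := hred f hf
      have h2 : (rho f).IsHomogeneous 1 := hom_algHom rho rho_hom1 hf1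
      rw [psi_lin h2] at h1
      have h3 : ∀ i, coeff (Finsupp.single i 1) (rho f) = 0 := fun i => congrFun (congrArg Alg.v h1) i
      rw [lin_form h2]
      simp [h3]
    obtain ⟨a, hl⟩ : ∃ a : Fin 5 ⊕ Fin ys.length → K, f = ∑ i, C (a i) * X i := ⟨_, lin_form hf1⟩
    rw [Fintype.sum_sum_type] at hl
    have hx : ∑ i, C (a (Sum.inl i)) * X i = (0 : MvPolynomial (Fin 5) K) := by
      rw [← hr, hl, map_add, map_sum, map_sum]
      simp [rho]
    have hx' : ∑ i, C (a (Sum.inl i)) * X (Sum.inl i) = (0 : MvPolynomial (Fin 5 ⊕ Fin ys.length) K) := by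
      have := congrArg (rename (Sum.inl : Fin 5 → Fin 5 ⊕ Fin ys.length)) hx
      simpa [map_sum] using this
    rw [hx', zero_add] at hl
    have hb : ∀ j, a (Sum.inr j) = 0 := by
      by_contra hcon
      push Not at hcon
      classical
      have hne : (Finset.univ.filter (fun j => a (Sum.inr j) ≠ 0)).Nonempty := by
        obtain ⟨j, hj⟩ := hcon
        exact ⟨j, by simp [hj]⟩
      obtain ⟨k, hk, hmax⟩ := Finset.exists_max_image _ (fun j : Fin ys.length => j.val) hne
      simp only [Finset.mem_filter, Finset.mem_univ, true_and] at hk hmax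
      have h1 : X (Sum.inr k) * C (a (Sum.inr k)) ∈ J.comap (Psi ys q Y) ⊔ Yk K ys.length k.val := by
        have e1 : f = ∑ j, (if j = k then C (a (Sum.inr k)) * X (Sum.inr k) else
            (if j.val < k.val then C (a (Sum.inr j)) * X (Sum.inr j) else 0)) := by
          conv_lhs => rw [hl]
          apply Finset.sum_congr rfl
          intro j _
          by_cases h : j = k
          · subst h; simp
          · rw [if_neg h]
            by_cases h' : j.val < k.val
            · rw [if_pos h']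
            · rw [if_neg h']
              have : a (Sum.inr j) = 0 := by
                by_contra hne'
                have h2 := hmax j hne'
                exact h (Fin.ext (by omega))
              rw [this]; simp
        have e2 : f = C (a (Sum.inr k)) * X (Sum.inr k) +
            ∑ j, (if j.val < k.val then C (a (Sum.inr j)) * X (Sum.inr j) else 0) := by
          conv_lhs => rw [e1]
          have : ∀ j : Fin ys.length, (if j = k then C (a (Sum.inr k)) * X (Sum.inr k) else
            (if j.val < k.val then C (a (Sum.inr j)) * X (Sum.inr j) else 0)) =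
            (if j = k then C (a (Sum.inr k)) * X (Sum.inr k) else 0) +
            ((if j.val < k.val then C (a (Sum.inr j)) * X (Sum.inr j) else 0) :
              MvPolynomial (Fin 5 ⊕ Fin ys.length) K) := by
            intro j
            by_cases h : j = k
            · subst h; simp
            · simp [h]
          rw [Finset.sum_congr rfl (fun j _ => this j), Finset.sum_add_distrib]
          simp
        have e3 : X (Sum.inr k) * C (a (Sum.inr k)) = f -
            ∑ j, (if j.val < k.val then C (a (Sum.inr j)) * X (Sum.inr j) else 0) := by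
          rw [eq_sub_iff_add_eq]
          conv_rhs => rw [e2]
          ring
        rw [e3]
        apply Ideal.sub_mem _ (Ideal.mem_sup_left hf)
        apply Ideal.mem_sup_right
        apply Ideal.sum_mem
        intro j _
        split_ifs with h
        · exact Ideal.mul_mem_left _ _ (Ideal.subset_span ⟨j, h, rfl⟩)
        · exact Ideal.zero_mem _
      have h2 := hregk k _ h1
      have h3 : (1 : MvPolynomial (Fin 5 ⊕ Fin ys.length) K) ∈ J.comap (Psi ys q Y) ⊔ Yk K ys.length k.val := by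
        have : (1 : MvPolynomial (Fin 5 ⊕ Fin ys.length) K) = C (a (Sum.inr k))⁻¹ * C (a (Sum.inr k)) := by
          rw [← C_mul, inv_mul_cancel₀ hk, C_1]
        rw [this]
        exact Ideal.mul_mem_left _ _ h2
      have h4 : Ideal.Quotient.mk J (Psi ys q Y 1) ∈ Ideal.ofList ys := by
        have h5 := mem_take ys q Y hY _ h3
        have h6 : Ideal.ofList (ys.take k.val) ≤ Ideal.ofList ys := by
          apply Ideal.span_mono
          intro x hx
          exact List.mem_of_mem_take hx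
        exact h6 h5
      have h7 : pr ys (Psi ys q Y 1) = 0 := by
        rw [pr_apply, Ideal.Quotient.eq_zero_iff_mem]
        exact h4
      rw [pr_Psi ys q Y φ hq hY, map_eq_zero_iff _ φ.injective, map_one, map_one] at h7
      have h8 : Ideal.Quotient.mk (genI s) 1 = 0 := h7
      rw [Ideal.Quotient.eq_zero_iff_mem, mem_genI_iff, map_one] at h8
      exact one_ne_zero h8
    rw [hl]
    apply Finset.sum_eq_zero
    intro j _
    rw [hb j]
    simp
  · intro a
    have h1 : pr ys (Psi ys q Y (sg 0 (gen s a))) = 0 := by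
      rw [pr_Psi ys q Y φ hq hY, rho_sg]
      have : Ideal.Quotient.mk (genI s) (gen s a) = 0 := mk_gen s a
      rw [this, map_zero]
    rw [pr_apply, Ideal.Quotient.eq_zero_iff_mem] at h1
    have h2 : sg 0 (gen s a) ∈ J.comap (Psi ys q Y) ⊔ Yk K ys.length ys.length := by
      apply of_mem_take ys q Y hY _ hsurj
      rwa [List.take_length]
    obtain ⟨F, hF, y, hy, he⟩ := Submodule.mem_sup.mp h2
    refine ⟨F, hF, ?_⟩
    have := congrArg rho he
    rw [map_add, Yk_le_ker_rho _ _ hy, add_zero, rho_sg] at this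
    exact this

end pres

end

end Pool.Agent.H58R2.LGQ
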