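import Pool.Agent.H58R2.LGQ.NotLG

set_option autoImplicit false

/-! Summary statements about `R_s`. -/

namespace Pool.Agent.H58R2.LGQ

open MvPolynomial

theorem not_LG {K : Type*} [Field K] {s : K} (hs : ∀ t : Fin 5 → K, mu s t t = 0 → t = 0) :
    ¬ ∃ (m : ℕ) (J : Ideal (MvPolynomial (Fin m) K)),
      (∀ f ∈ J, ∀ d : ℕ, MvPolynomial.homogeneousComponent d f ∈ J) ∧
      (∃ ord : MonomialOrder (Fin m),
        Ideal.span ((fun f : MvPolynomial (Fin m) K => MvPolynomial.monomial (ord.degree f) (1 : K)) ''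
            {f | f ∈ J ∧ f ≠ 0}) ≤
        Ideal.span ((fun f : MvPolynomial (Fin m) K => MvPolynomial.monomial (ord.degree f) (1 : K)) ''
            {f | f ∈ J ∧ f ≠ 0 ∧ (ord.degree f).degree = 2})) ∧
      ∃ ys : List (MvPolynomial (Fin m) K ⧸ J),
        (∀ y ∈ ys, ∃ q : MvPolynomial (Fin m) K, q.IsHomogeneous 1 ∧ y = Ideal.Quotient.mk J q) ∧
        RingTheory.Sequence.IsRegular (MvPolynomial (Fin m) K ⧸ J) ys ∧
        ∃ φ : (MvPolynomial (Fin 5) K ⧸ genI s) ≃ₐ[K] ((MvPolynomial (Fin m) K ⧸ J) ⧸ Ideal.ofList ys),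
          ∀ p : MvPolynomial (Fin 5) K, p.IsHomogeneous 1 →
            ∃ q : MvPolynomial (Fin m) K, q.IsHomogeneous 1 ∧
              φ (Ideal.Quotient.mk (genI s) p) = Ideal.Quotient.mk (Ideal.ofList ys) (Ideal.Quotient.mk J q) := by
  rintro ⟨m, J, hJ, ⟨ord, hG⟩, ys, hys, hreg, φ, hφ⟩
  choose q hqh hq using fun i : Fin 5 => hφ (X i) (isHomogeneous_X K i)
  choose Y hYh hY using fun j : Fin ys.length => hys (ys.get j) (List.get_mem ys j)
  have hlow := low (J := J) (ord := ord) hG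
  have hsurj := Psi_surj ys q Y φ hJ hlow hqh hYh hq hY
  have H := build ys q Y φ hJ hlow hqh hYh hq hY hreg
  exact contra hs hJ hG (Psi ys q Y) (Psi_hom1 ys q Y hqh hYh) hsurj H

end Pool.Agent.H58R2.LGQ
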