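import Mathlib

set_option autoImplicit false

/-! Graded bookkeeping for multivariate polynomials. -/

namespace Pool.Agent.H58R2.LGQ

open MvPolynomial

section

variable {K : Type*} [Field K] {σ τ : Type*}

lemma hc_sum_eq (q : MvPolynomial σ K) (N : ℕ) (hN : q.totalDegree ≤ N) :
    ∑ i ∈ Finset.range (N + 1), homogeneousComponent i q = q := by
  conv_rhs => rw [← sum_homogeneousComponent q]
  symm
  apply Finset.sum_subset
  · intro i hi
    simp only [Finset.mem_range] at hi ⊢
    omega
  · intro i _ hi
    simp only [Finset.mem_range, not_lt] at hi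
    exact homogeneousComponent_eq_zero i q (by omega)

lemma hc_mul {p : MvPolynomial σ K} {m : ℕ} (hp : p.IsHomogeneous m) (q : MvPolynomial σ K) (n : ℕ) :
    homogeneousComponent (m + n) (p * q) = p * homogeneousComponent n q := by
  have h := hc_sum_eq q (max q.totalDegree n) (le_max_left _ _)
  conv_lhs => rw [← h, Finset.mul_sum, map_sum]
  rw [Finset.sum_eq_single n]
  · have h1 : (p * homogeneousComponent n q).IsHomogeneous (m + n) :=
      hp.mul (homogeneousComponent_isHomogeneous n q)
    exact homogeneousComponent_eq_self h1
  · intro i _ hi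
    have h1 : (p * homogeneousComponent i q).IsHomogeneous (m + i) :=
      hp.mul (homogeneousComponent_isHomogeneous i q)
    rw [homogeneousComponent_of_mem h1, if_neg (by omega)]
  · intro h2
    exfalso
    apply h2
    simp

lemma hc_algHom (F : MvPolynomial σ K →ₐ[K] MvPolynomial τ K) (hF : ∀ i, (F (X i)).IsHomogeneous 1)
    (n : ℕ) (p : MvPolynomial σ K) :
    homogeneousComponent n (F p) = F (homogeneousComponent n p) := by
  have hhom : ∀ (q : MvPolynomial σ K) (i : ℕ), q.IsHomogeneous i → (F q).IsHomogeneous i := by
    intro q i hq
    have h1 : F = aeval (fun i => F (X i)) := by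
      apply MvPolynomial.algHom_ext
      intro i; simp
    rw [h1]
    have := hq.aeval (fun i => F (X i)) hF
    simpa using this
  have h := hc_sum_eq p (max p.totalDegree n) (le_max_left _ _)
  conv_lhs => rw [← h, map_sum, map_sum]
  rw [Finset.sum_eq_single n]
  · exact homogeneousComponent_eq_self (hhom _ _ (homogeneousComponent_isHomogeneous n p))
  · intro i _ hi
    rw [homogeneousComponent_of_mem (hhom _ _ (homogeneousComponent_isHomogeneous i p)), if_neg (by omega)]
  · intro h2
    exfalso
    apply h2
    simp

lemma hom_algHom (F : MvPolynomial σ K →ₐ[K] MvPolynomial τ K) (hF : ∀ i, (F (X i)).IsHomogeneous 1)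
    {n : ℕ} {p : MvPolynomial σ K} (hp : p.IsHomogeneous n) : (F p).IsHomogeneous n := by
  have h1 := hc_algHom F hF n p
  rw [homogeneousComponent_eq_self hp] at h1
  rw [← h1]
  exact homogeneousComponent_isHomogeneous _ _

lemma lin_form [Fintype σ] {p : MvPolynomial σ K} (hp : p.IsHomogeneous 1) :
    p = ∑ i, C (coeff (Finsupp.single i 1) p) * X i := by
  have h : p ∈ homogeneousSubmodule σ K 1 := hp
  rw [homogeneousSubmodule_one_eq_span_X] at h
  induction h using Submodule.span_induction with
  | mem x hx =>
    classical
    obtain ⟨i, rfl⟩ := hx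
    rw [Finset.sum_eq_single i]
    · simp
    · intro j _ hj
      rw [MvPolynomial.coeff_X', if_neg]
      · simp
      · intro h
        exact hj ((Finsupp.single_left_injective one_ne_zero h).symm)
    · simp
  | zero => simp
  | add x y _ _ hx hy =>
    have hx' := hx (by
      have : x ∈ homogeneousSubmodule σ K 1 := by rw [homogeneousSubmodule_one_eq_span_X]; assumption
      exact this)
    have hy' := hy (by
      have : y ∈ homogeneousSubmodule σ K 1 := by rw [homogeneousSubmodule_one_eq_span_X]; assumption
      exact this)
    conv_lhs => rw [hx', hy']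
    simp [add_mul, Finset.sum_add_distrib]
  | smul a x _ hx =>
    have hx' := hx (by
      have : x ∈ homogeneousSubmodule σ K 1 := by rw [homogeneousSubmodule_one_eq_span_X]; assumption
      exact this)
    conv_lhs => rw [hx']
    simp [Finset.smul_sum, MvPolynomial.smul_eq_C_mul, mul_assoc]

lemma hom_zero {p : MvPolynomial σ K} (hp : p.IsHomogeneous 0) : p = C (coeff 0 p) := by
  have := homogeneousComponent_eq_self hp
  rw [homogeneousComponent_zero] at this
  exact this.symm

end

end Pool.Agent.H58R2.LGQ
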