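import Pool.Agent.H58R2.LGQ.Alg

set_option autoImplicit false

namespace Pool.Agent.H58R2.LGQ

open MvPolynomial

section theta

variable {K : Type*} [Field K] {s : K} {Q : Type*} [CommRing Q] [Algebra K Q]

/-- candidate inverse -/
noncomputable def th (x : Fin 5 → Q) (z : Alg K s) : Q :=
  algebraMap K Q z.r + (algebraMap K Q (z.v 0) * x 0 + algebraMap K Q (z.v 1) * x 1 +
    algebraMap K Q (z.v 2) * x 2 + algebraMap K Q (z.v 3) * x 3 + algebraMap K Q (z.v 4) * x 4) +
  (algebraMap K Q (z.u 0) * (x 0 * x 0) + algebraMap K Q (z.u 1) * (x 0 * x 1) +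
    algebraMap K Q (z.u 2) * (x 1 * x 1) + algebraMap K Q (z.u 3) * (x 0 * x 4) +
    algebraMap K Q (z.u 4) * (x 1 * x 4))

lemma th_add (x : Fin 5 → Q) (z w : Alg K s) : th x (z + w) = th x z + th x w := by
  simp [th]; ring

lemma th_algebraMap (x : Fin 5 → Q) (c : K) : th x (algebraMap K (Alg K s) c) = algebraMap K Q c := by
  simp [th, algebraMap_eq]

lemma th_step (x : Fin 5 → Q)
    (r1 : x 0 * x 2 = 0) (r2 : x 0 * x 3 = 0) (r3 : x 1 * x 2 = 0) (r4 : x 1 * x 3 = 0)
    (r5 : x 2 * x 2 = x 0 * x 4) (r6 : x 3 * x 3 = x 1 * x 4) (r7 : x 2 * x 4 = x 0 * x 0)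
    (r8 : x 3 * x 4 = x 1 * x 1) (r9 : x 2 * x 3 = x 0 * x 1)
    (r10 : x 4 * x 4 = algebraMap K Q s * (x 0 * x 1))
    (z : Alg K s) (i : Fin 5) : th x (z * ev s i) = th x z * x i := by
  have a0 : x 0 * (x 0 * x 0) = 0 := by linear_combination (-x 0) * r7 + x 4 * r1
  have a1 : x 0 * (x 0 * x 1) = 0 := by linear_combination (-x 0) * r9 + x 3 * r1
  have a2 : x 0 * (x 1 * x 1) = 0 := by linear_combination (-x 0) * r8 + x 4 * r2
  have a3 : x 0 * (x 0 * x 4) = 0 := by linear_combination (-x 0) * r5 + x 2 * r1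
  have a4 : x 0 * (x 1 * x 4) = 0 := by linear_combination (-x 0) * r6 + x 3 * r2
  have b0 : x 1 * (x 0 * x 0) = 0 := by linear_combination (-x 1) * r7 + x 4 * r3
  have b1 : x 1 * (x 0 * x 1) = 0 := by linear_combination (-x 1) * r9 + x 3 * r3
  have b2 : x 1 * (x 1 * x 1) = 0 := by linear_combination (-x 1) * r8 + x 4 * r4
  have b3 : x 1 * (x 0 * x 4) = 0 := by linear_combination (-x 1) * r5 + x 2 * r3
  have b4 : x 1 * (x 1 * x 4) = 0 := by linear_combination (-x 1) * r6 + x 3 * r4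
  have e3 : x 4 * (x 0 * x 4) = 0 := by linear_combination x 0 * r10 + algebraMap K Q s * a1
  have e4 : x 4 * (x 1 * x 4) = 0 := by linear_combination x 1 * r10 + algebraMap K Q s * b1
  set A := algebraMap K Q with hA
  fin_cases i
  · simp [th, ev, mu]
    linear_combination (-A (z.v 2)) * r1 + (-A (z.v 3)) * r2 + (-A (z.u 0)) * a0 + (-A (z.u 1)) * a1 +
      (-A (z.u 2)) * a2 + (-A (z.u 3)) * a3 + (-A (z.u 4)) * a4
  · simp [th, ev, mu]
    linear_combination (-A (z.v 2)) * r3 + (-A (z.v 3)) * r4 + (-A (z.u 0)) * b0 + (-A (z.u 1)) * b1 +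
      (-A (z.u 2)) * b2 + (-A (z.u 3)) * b3 + (-A (z.u 4)) * b4
  · simp [th, ev, mu]
    linear_combination (-A (z.v 0)) * r1 + (-A (z.v 1)) * r3 + (-A (z.v 2)) * r5 + (-A (z.v 3)) * r9 +
      (-A (z.v 4)) * r7 + (-A (z.u 0)) * x 0 * r1 + (-A (z.u 1)) * x 1 * r1 + (-A (z.u 2)) * x 1 * r3 +
      (-A (z.u 3)) * x 4 * r1 + (-A (z.u 4)) * x 4 * r3
  · simp [th, ev, mu]
    linear_combination (-A (z.v 0)) * r2 + (-A (z.v 1)) * r4 + (-A (z.v 2)) * r9 + (-A (z.v 3)) * r6 +
      (-A (z.v 4)) * r8 + (-A (z.u 0)) * x 0 * r2 + (-A (z.u 1)) * x 1 * r2 + (-A (z.u 2)) * x 1 * r4 +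
      (-A (z.u 3)) * x 4 * r2 + (-A (z.u 4)) * x 4 * r4
  · simp [th, ev, mu]
    linear_combination (-A (z.v 2)) * r7 + (-A (z.v 3)) * r8 + (-A (z.v 4)) * r10 + (-A (z.u 0)) * a3 +
      (-A (z.u 1)) * b3 + (-A (z.u 2)) * b4 + (-A (z.u 3)) * e3 + (-A (z.u 4)) * e4

end theta

section ker

variable {K : Type*} [Field K] (s : K)

/-- the ideal generated by the ten quadrics -/
noncomputable def genI : Ideal (MvPolynomial (Fin 5) K) := Ideal.span (Set.range (gen s))

lemma mk_gen (a : Fin 10) : Ideal.Quotient.mk (genI s) (gen s a) = 0 :=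
  Ideal.Quotient.eq_zero_iff_mem.mpr (Ideal.subset_span ⟨a, rfl⟩)

lemma th_psi (p : MvPolynomial (Fin 5) K) :
    th (fun i => Ideal.Quotient.mk (genI s) (X i)) (psi s p) = Ideal.Quotient.mk (genI s) p := by
  induction p using MvPolynomial.induction_on with
  | C c =>
    have h1 : psi s (C c) = algebraMap K (Alg K s) c := by
      have := (psi s).commutes c
      simpa [MvPolynomial.algebraMap_eq] using this
    rw [h1, th_algebraMap]
    rfl
  | add p q hp hq => rw [map_add, th_add, hp, hq, map_add]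
  | mul_X p i hp =>
    rw [map_mul, psi_X, th_step, hp, map_mul]
    · have := mk_gen s 0; simpa [gen] using this
    · have := mk_gen s 1; simpa [gen] using this
    · have := mk_gen s 2; simpa [gen] using this
    · have := mk_gen s 3; simpa [gen] using this
    · have := mk_gen s 4; simpa [gen, sub_eq_zero] using this
    · have := mk_gen s 5; simpa [gen, sub_eq_zero] using this
    · have := mk_gen s 6; simpa [gen, sub_eq_zero] using this
    · have := mk_gen s 7; simpa [gen, sub_eq_zero] using this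
    · have := mk_gen s 8; simpa [gen, sub_eq_zero] using this
    · have := mk_gen s 9
      simp only [gen, Matrix.cons_val, map_sub, sub_eq_zero, map_mul] at this
      exact this

lemma mem_genI_iff (p : MvPolynomial (Fin 5) K) : p ∈ genI s ↔ psi s p = 0 := by
  constructor
  · intro hp
    have h : genI s ≤ RingHom.ker (psi s : MvPolynomial (Fin 5) K →+* Alg K s) := by
      rw [genI, Ideal.span_le]
      rintro _ ⟨a, rfl⟩
      exact psi_gen s a
    exact h hp
  · intro hp
    have := th_psi s p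
    rw [hp] at this
    rw [← Ideal.Quotient.eq_zero_iff_mem, ← this]
    simp [th]

lemma psi_surjective : Function.Surjective (psi s) := by
  intro z
  refine ⟨C z.r + (C (z.v 0) * X 0 + C (z.v 1) * X 1 + C (z.v 2) * X 2 + C (z.v 3) * X 3 + C (z.v 4) * X 4) +
    (C (z.u 0) * (X 0 * X 0) + C (z.u 1) * (X 0 * X 1) + C (z.u 2) * (X 1 * X 1) + C (z.u 3) * (X 0 * X 4) +
      C (z.u 4) * (X 1 * X 4)), ?_⟩
  apply Alg.ext
  · simp [psi, ev, algebraMap_eq]
  · funext i
    fin_cases i <;> simp [psi, ev, algebraMap_eq]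
  · funext i
    fin_cases i <;> simp [psi, ev, algebraMap_eq, mu]

end ker

end Pool.Agent.H58R2.LGQ
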