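import Pool.Agent.H58R2.LGQ.Gr
import Pool.Agent.H58R2.LGQ.Ker

set_option autoImplicit false

/-! The lifting argument. -/

namespace Pool.Agent.H58R2.LGQ

open MvPolynomial

section

variable {K : Type*} [Field K] {c : ℕ}

/-- setting `y = 0` -/
noncomputable def rho : MvPolynomial (Fin 5 ⊕ Fin c) K →ₐ[K] MvPolynomial (Fin 5) K :=
  aeval (Sum.elim X (C ∘ fun _ => (0 : K)))

@[simp] lemma rho_inl (i : Fin 5) : rho (c := c) (X (Sum.inl i) : MvPolynomial _ K) = X i := by simp [rho]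
@[simp] lemma rho_inr (j : Fin c) : rho (X (Sum.inr j) : MvPolynomial _ K) = 0 := by simp [rho]

/-- the substitution `x_k ↦ x_k + ∑ t_{jk} y_j` -/
noncomputable def sg (t : Fin c → Fin 5 → K) : MvPolynomial (Fin 5) K →ₐ[K] MvPolynomial (Fin 5 ⊕ Fin c) K :=
  aeval (fun k => X (Sum.inl k) + ∑ j, C (t j k) * X (Sum.inr j))

@[simp] lemma rho_sg (t : Fin c → Fin 5 → K) (p : MvPolynomial (Fin 5) K) : rho (sg t p) = p := by
  have : (rho (K := K) (c := c)).comp (sg t) = AlgHom.id K _ := by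
    apply MvPolynomial.algHom_ext
    intro i
    simp [sg]
  exact DFunLike.congr_fun this p

/-- first order coefficient in `y_j` -/
noncomputable def Dj (j : Fin c) (f : MvPolynomial (Fin 5 ⊕ Fin c) K) : MvPolynomial (Fin 5) K :=
  rho (pderiv (Sum.inr j) f)

lemma Dj_add (j : Fin c) (f g : MvPolynomial (Fin 5 ⊕ Fin c) K) : Dj j (f + g) = Dj j f + Dj j g := by
  simp [Dj]

lemma Dj_sub (j : Fin c) (f g : MvPolynomial (Fin 5 ⊕ Fin c) K) : Dj j (f - g) = Dj j f - Dj j g := by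
  simp [Dj]

lemma Dj_sum {ι : Type*} (u : Finset ι) (j : Fin c) (f : ι → MvPolynomial (Fin 5 ⊕ Fin c) K) :
    Dj j (∑ a ∈ u, f a) = ∑ a ∈ u, Dj j (f a) := by
  simp [Dj]

lemma Dj_mul (j : Fin c) (f g : MvPolynomial (Fin 5 ⊕ Fin c) K) :
    Dj j (f * g) = rho f * Dj j g + Dj j f * rho g := by
  simp [Dj, pderiv_mul]; ring

lemma Dj_C (j : Fin c) (a : K) : Dj j (C a) = 0 := by simp [Dj]

lemma Dj_inl (j : Fin c) (i : Fin 5) : Dj j (X (Sum.inl i) : MvPolynomial _ K) = 0 := by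
  simp [Dj, pderiv_X]

lemma Dj_inr (j i : Fin c) : Dj j (X (Sum.inr i) : MvPolynomial _ K) = if i = j then 1 else 0 := by
  classical
  simp only [Dj, pderiv_X]
  by_cases h : i = j
  · subst h; simp
  · simp [h, Pi.single_apply]

lemma Dj_sg_X (t : Fin c → Fin 5 → K) (j : Fin c) (k : Fin 5) : Dj j (sg t (X k)) = C (t j k) := by
  simp only [sg, aeval_X, Dj_add, Dj_inl, Dj_sum, Dj_mul, Dj_C, Dj_inr, zero_add, zero_mul, add_zero]
  rw [Finset.sum_eq_single j]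
  · simp [rho]
  · intro b _ hb; simp [hb]
  · simp

lemma Dj_sg_mul (t : Fin c → Fin 5 → K) (j : Fin c) (p q : MvPolynomial (Fin 5) K) :
    Dj j (sg t (p * q)) = p * Dj j (sg t q) + Dj j (sg t p) * q := by
  rw [map_mul, Dj_mul, rho_sg, rho_sg]

lemma Dj_sg_zero (j : Fin c) (p : MvPolynomial (Fin 5) K) :
    Dj j (sg (0 : Fin c → Fin 5 → K) p) = 0 := by
  induction p using MvPolynomial.induction_on with
  | C a => 
    have : sg (0 : Fin c → Fin 5 → K) (C a) = C a := by simp [sg]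
    rw [this, Dj_C]
  | add p q hp hq => rw [map_add, Dj_add, hp, hq, add_zero]
  | mul_X p i hp => rw [Dj_sg_mul, hp, Dj_sg_X]; simp

lemma Dj_ysum (G : Fin c → MvPolynomial (Fin 5 ⊕ Fin c) K) (j : Fin c) :
    Dj j (∑ i, X (Sum.inr i) * G i) = rho (G j) := by
  rw [Dj_sum, Finset.sum_eq_single j]
  · simp [Dj_mul, Dj_inr]
  · intro i _ hi
    simp [Dj_mul, Dj_inr, hi]
  · simp

/-- the ideal generated by the first `k` of the `y`'s -/
noncomputable def Yk (K : Type*) [Field K] (c : ℕ) (k : ℕ) : Ideal (MvPolynomial (Fin 5 ⊕ Fin c) K) :=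
  Ideal.span {f | ∃ j : Fin c, j.val < k ∧ f = X (Sum.inr j)}

lemma sub_rho_mem (f : MvPolynomial (Fin 5 ⊕ Fin c) K) : f - sg 0 (rho f) ∈ Yk K c c := by
  induction f using MvPolynomial.induction_on with
  | C a => simp [sg, rho]
  | add p q hp hq =>
    have : p + q - sg 0 (rho (p + q)) = (p - sg 0 (rho p)) + (q - sg 0 (rho q)) := by
      rw [map_add, map_add]; ring
    rw [this]
    exact Ideal.add_mem _ hp hq
  | mul_X p i hp =>
    cases i with
    | inl i =>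
      have : p * X (Sum.inl i) - sg 0 (rho (p * X (Sum.inl i))) = (p - sg 0 (rho p)) * X (Sum.inl i) := by
        rw [map_mul, map_mul, rho_inl]
        simp [sg, sub_mul]
      rw [this]
      exact Ideal.mul_mem_right _ _ hp
    | inr j =>
      have : p * X (Sum.inr j) - sg 0 (rho (p * X (Sum.inr j))) = p * X (Sum.inr j) := by
        rw [map_mul, rho_inr]; simp
      rw [this]
      exact Ideal.mul_mem_left _ _ (Ideal.subset_span ⟨j, j.isLt, rfl⟩)

lemma mem_Y_of_rho {f : MvPolynomial (Fin 5 ⊕ Fin c) K} (h : rho f = 0) : f ∈ Yk K c c := by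
  have := sub_rho_mem f
  rw [h] at this
  simpa using this

lemma Yk_succ (k : Fin c) {f : MvPolynomial (Fin 5 ⊕ Fin c) K} (hf : f ∈ Yk K c (k.val + 1)) :
    ∃ f' ∈ Yk K c k.val, ∃ a, f = f' + X (Sum.inr k) * a := by
  have h1 : Yk K c (k.val + 1) ≤ Yk K c k.val ⊔ Ideal.span {X (Sum.inr k)} := by
    rw [Yk, Ideal.span_le]
    rintro _ ⟨j, hj, rfl⟩
    rcases Nat.lt_succ_iff_lt_or_eq.mp hj with h | h
    · exact Ideal.mem_sup_left (Ideal.subset_span ⟨j, h, rfl⟩)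
    · have : j = k := Fin.ext h
      subst this
      exact Ideal.mem_sup_right (Ideal.subset_span rfl)
  obtain ⟨f', hf', g, hg, rfl⟩ := Submodule.mem_sup.mp (h1 hf)
  obtain ⟨a, rfl⟩ := Ideal.mem_span_singleton'.mp hg
  exact ⟨f', hf', a, by ring⟩

/-- hypotheses on the presentation ideal of a lift -/
structure Hyp (s : K) (J : Ideal (MvPolynomial (Fin 5 ⊕ Fin c) K)) : Prop where
  hom : ∀ f ∈ J, ∀ d, homogeneousComponent d f ∈ J
  nolin : ∀ f ∈ J, f.IsHomogeneous 1 → f = 0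
  reg : ∀ (k : Fin c) (f), X (Sum.inr k) * f ∈ J ⊔ Yk K c k.val → f ∈ J ⊔ Yk K c k.val
  red : ∀ f ∈ J, psi s (rho f) = 0
  lft : ∀ a, ∃ F ∈ J, rho F = gen s a

variable {s : K} {J : Ideal (MvPolynomial (Fin 5 ⊕ Fin c) K)}

lemma Hyp.reg_lift (H : Hyp s J) (k : ℕ) (hk : k ≤ c) :
    ∀ f ∈ J, f ∈ Yk K c k → ∃ G : Fin c → MvPolynomial (Fin 5 ⊕ Fin c) K,
      (∀ j, G j ∈ J) ∧ f = ∑ j, X (Sum.inr j) * G j := by
  induction k with
  | zero =>
    intro f _ hf
    have : f = 0 := by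
      have h0 : Yk K c 0 = ⊥ := by
        rw [Yk, Ideal.span_eq_bot]
        rintro _ ⟨j, hj, rfl⟩
        exact absurd hj (Nat.not_lt_zero _)
      rw [h0] at hf
      exact (Submodule.mem_bot _).mp hf
    exact ⟨0, fun j => J.zero_mem, by simp [this]⟩
  | succ k ih =>
    intro f hfJ hf
    obtain ⟨f', hf', a, rfl⟩ := Yk_succ ⟨k, by omega⟩ hf
    have h1 : X (Sum.inr ⟨k, by omega⟩) * a ∈ J ⊔ Yk K c k := by
      have : X (Sum.inr ⟨k, by omega⟩) * a = (f' + X (Sum.inr ⟨k, by omega⟩) * a) - f' := by ring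
      rw [this]
      exact Ideal.sub_mem _ (Ideal.mem_sup_left hfJ) (Ideal.mem_sup_right hf')
    have h2 := H.reg ⟨k, by omega⟩ a h1
    obtain ⟨g, hg, h, hh, rfl⟩ := Submodule.mem_sup.mp h2
    obtain ⟨G, hG, hGe⟩ := ih (by omega) (f' + X (Sum.inr ⟨k, by omega⟩) * h)
      (by
        have : f' + X (Sum.inr ⟨k, by omega⟩) * h = (f' + X (Sum.inr ⟨k, by omega⟩) * (g + h)) -
          X (Sum.inr ⟨k, by omega⟩) * g := by ring
        rw [this]
        exact Ideal.sub_mem _ hfJ (Ideal.mul_mem_left _ _ hg))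
      (Ideal.add_mem _ hf' (Ideal.mul_mem_left _ _ hh))
    classical
    refine ⟨fun j => G j + if j = ⟨k, by omega⟩ then g else 0, ?_, ?_⟩
    · intro j
      apply Ideal.add_mem _ (hG j)
      split_ifs
      · exact hg
      · exact J.zero_mem
    · have : f' + X (Sum.inr ⟨k, by omega⟩) * (g + h) = (f' + X (Sum.inr ⟨k, by omega⟩) * h) +
          X (Sum.inr ⟨k, by omega⟩) * g := by ring
      rw [this, hGe]
      simp [mul_add, Finset.sum_add_distrib]

lemma Hyp.hom_lift (H : Hyp s J) {n : ℕ} {f : MvPolynomial (Fin 5 ⊕ Fin c) K} (hf : f ∈ J)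
    (hh : f.IsHomogeneous (1 + n)) (h0 : rho f = 0) :
    ∃ G : Fin c → MvPolynomial (Fin 5 ⊕ Fin c) K,
      (∀ j, G j ∈ J ∧ (G j).IsHomogeneous n) ∧ f = ∑ j, X (Sum.inr j) * G j := by
  obtain ⟨G, hG, hGe⟩ := H.reg_lift c le_rfl f hf (mem_Y_of_rho h0)
  refine ⟨fun j => homogeneousComponent n (G j), fun j => ⟨H.hom _ (hG j) n,
    homogeneousComponent_isHomogeneous _ _⟩, ?_⟩
  have h1 := homogeneousComponent_eq_self hh
  rw [← h1]
  conv_lhs => rw [hGe]
  rw [map_sum]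
  apply Finset.sum_congr rfl
  intro j _
  exact hc_mul (isHomogeneous_X _ _) _ _

lemma Hyp.deg2 (H : Hyp s J) {f : MvPolynomial (Fin 5 ⊕ Fin c) K} (hf : f ∈ J)
    (hh : f.IsHomogeneous 2) (h0 : rho f = 0) : f = 0 := by
  obtain ⟨G, hG, hGe⟩ := H.hom_lift (n := 1) hf hh h0
  rw [hGe]
  apply Finset.sum_eq_zero
  intro j _
  rw [H.nolin _ (hG j).1 (hG j).2, mul_zero]

lemma Hyp.deg3_D (H : Hyp s J) {f : MvPolynomial (Fin 5 ⊕ Fin c) K} (hf : f ∈ J)
    (hh : f.IsHomogeneous 3) (h0 : rho f = 0) (j : Fin c) : psi s (Dj j f) = 0 := by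
  obtain ⟨G, hG, hGe⟩ := H.hom_lift (n := 2) hf hh h0
  rw [hGe, Dj_ysum]
  exact H.red _ (hG j).1

lemma Hyp.deg3_zero (H : Hyp s J) {f : MvPolynomial (Fin 5 ⊕ Fin c) K} (hf : f ∈ J)
    (hh : f.IsHomogeneous 3) (h0 : rho f = 0) (hD : ∀ j, Dj j f = 0) : f = 0 := by
  obtain ⟨G, hG, hGe⟩ := H.hom_lift (n := 2) hf hh h0
  rw [hGe]
  apply Finset.sum_eq_zero
  intro j _
  have := hD j
  rw [hGe, Dj_ysum] at this
  rw [H.deg2 (hG j).1 (hG j).2 this, mul_zero]

end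

end Pool.Agent.H58R2.LGQ
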