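import Pool.Agent.H58R2.LGQ.Ker

set_option autoImplicit false

/-! Linear syzygies and trivial negative tangents. -/

namespace Pool.Agent.H58R2.LGQ

open MvPolynomial

section

variable {K : Type*} [Field K] (s : K)

/-- linear syzygies of the ten quadrics -/
noncomputable def syz : Fin 15 → Fin 10 → MvPolynomial (Fin 5) K :=
  ![![X 1, 0, -X 0, 0, 0, 0, 0, 0, 0, 0],
    ![0, X 1, 0, -X 0, 0, 0, 0, 0, 0, 0],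
    ![X 3, -X 2, 0, 0, 0, 0, 0, 0, 0, 0],
    ![0, 0, X 3, -X 2, 0, 0, 0, 0, 0, 0],
    ![-X 2 + C s * X 1, 0, 0, 0, X 0, 0, -X 4, 0, 0, X 2],
    ![0, 0, 0, -X 3 + C s * X 0, 0, X 1, 0, -X 4, 0, X 3],
    ![X 0 - C s * X 3, 0, 0, 0, -X 4, 0, X 2, 0, C s * X 0, -X 0],
    ![0, 0, 0, X 1 - C s * X 2, 0, -X 4, 0, X 3, C s * X 1, -X 1],
    ![-X 3, 0, X 4, 0, 0, 0, -X 1, 0, X 0, 0],
    ![0, X 4, 0, -X 2, 0, 0, 0, -X 0, X 1, 0],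
    ![0, -X 4, X 0, 0, -X 3, 0, 0, 0, X 2, 0],
    ![0, X 1, -X 4, 0, 0, -X 2, 0, 0, X 3, 0],
    ![0, X 0, -X 1, 0, 0, 0, X 3, -X 2, 0, 0],
    ![0, -X 0, X 2, 0, -X 1, 0, -X 3, 0, X 4, 0],
    ![0, -X 3, X 2, 0, -X 1, X 0, 0, 0, 0, 0]]

lemma syz_gen (i : Fin 15) : ∑ a, syz s i a * gen s a = 0 := by
  fin_cases i <;> simp [syz, gen, Fin.sum_univ_succ] <;> ring

/-- derivative vectors of the ten quadrics -/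
def transl (t : Fin 5 → K) : Fin 10 → Fin 5 → K :=
  ![![t 2, 0, t 0, 0, 0], ![t 3, 0, 0, t 0, 0], ![0, t 2, t 1, 0, 0], ![0, t 3, 0, t 1, 0],
    ![-t 4, 0, 2 * t 2, 0, -t 0], ![0, -t 4, 0, 2 * t 3, -t 1], ![-(2 * t 0), 0, t 4, 0, t 2],
    ![0, -(2 * t 1), 0, t 4, t 3], ![-t 1, -t 0, t 3, t 2, 0], ![-(s * t 1), -(s * t 0), 0, 0, 2 * t 4]]

lemma tone_0 (l : Fin 10 → Fin 5 → K)
    (h : ∑ a, psi s (syz s 0 a) * mkA s 0 (l a) 0 = 0) :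
      l 2 0 = 0 ∧
      l 0 0 + -l 2 1 = 0 ∧
      l 0 1 = 0 ∧
      l 2 4 = 0 ∧
      l 0 4 = 0 := by
  have e : ∀ k, (∑ a, psi s (syz s 0 a) * mkA s 0 (l a) 0).u k = 0 := by
    intro k; rw [h]; rfl
  have e0 := e 0
  have e1 := e 1
  have e2 := e 2
  have e3 := e 3
  have e4 := e 4
  simp [syz, ev, Fin.sum_univ_succ, mu, psi, algebraMap_eq] at e0 e1 e2 e3 e4
  exact ⟨e0, e1, e2, e3, e4⟩

lemma tone_1 (l : Fin 10 → Fin 5 → K)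
    (h : ∑ a, psi s (syz s 1 a) * mkA s 0 (l a) 0 = 0) :
      l 3 0 = 0 ∧
      l 1 0 + -l 3 1 = 0 ∧
      l 1 1 = 0 ∧
      l 3 4 = 0 ∧
      l 1 4 = 0 := by
  have e : ∀ k, (∑ a, psi s (syz s 1 a) * mkA s 0 (l a) 0).u k = 0 := by
    intro k; rw [h]; rfl
  have e0 := e 0
  have e1 := e 1
  have e2 := e 2
  have e3 := e 3
  have e4 := e 4
  simp [syz, ev, Fin.sum_univ_succ, mu, psi, algebraMap_eq] at e0 e1 e2 e3 e4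
  exact ⟨e0, e1, e2, e3, e4⟩

lemma tone_2 (l : Fin 10 → Fin 5 → K)
    (h : ∑ a, psi s (syz s 2 a) * mkA s 0 (l a) 0 = 0) :
      l 1 4 = 0 ∧
      l 0 2 + -l 1 3 = 0 ∧
      l 0 4 = 0 ∧
      l 1 2 = 0 ∧
      l 0 3 = 0 := by
  have e : ∀ k, (∑ a, psi s (syz s 2 a) * mkA s 0 (l a) 0).u k = 0 := by
    intro k; rw [h]; rfl
  have e0 := e 0
  have e1 := e 1
  have e2 := e 2
  have e3 := e 3
  have e4 := e 4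
  simp [syz, ev, Fin.sum_univ_succ, mu, psi, algebraMap_eq] at e0 e1 e2 e3 e4
  exact ⟨e0, e1, e2, e3, e4⟩

lemma tone_3 (l : Fin 10 → Fin 5 → K)
    (h : ∑ a, psi s (syz s 3 a) * mkA s 0 (l a) 0 = 0) :
      l 3 4 = 0 ∧
      l 2 2 + -l 3 3 = 0 ∧
      l 2 4 = 0 ∧
      l 3 2 = 0 ∧
      l 2 3 = 0 := by
  have e : ∀ k, (∑ a, psi s (syz s 3 a) * mkA s 0 (l a) 0).u k = 0 := by
    intro k; rw [h]; rfl
  have e0 := e 0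
  have e1 := e 1
  have e2 := e 2
  have e3 := e 3
  have e4 := e 4
  simp [syz, ev, Fin.sum_univ_succ, mu, psi, algebraMap_eq] at e0 e1 e2 e3 e4
  exact ⟨e0, e1, e2, e3, e4⟩

lemma tone_4 (l : Fin 10 → Fin 5 → K)
    (h : ∑ a, psi s (syz s 4 a) * mkA s 0 (l a) 0 = 0) :
      -l 0 4 + (l 4 0 + (-l 6 2 + l 9 4)) = 0 ∧
      s * l 0 0 + -l 0 3 + (l 4 1 + (-(s * l 6 4) + l 9 3)) = 0 ∧
      s * l 0 1 + -l 6 3 = 0 ∧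
      -l 0 2 + (l 4 4 + (-l 6 0 + l 9 2)) = 0 ∧
      s * l 0 4 + -l 6 1 = 0 := by
  have e : ∀ k, (∑ a, psi s (syz s 4 a) * mkA s 0 (l a) 0).u k = 0 := by
    intro k; rw [h]; rfl
  have e0 := e 0
  have e1 := e 1
  have e2 := e 2
  have e3 := e 3
  have e4 := e 4
  simp [syz, ev, Fin.sum_univ_succ, mu, psi, algebraMap_eq] at e0 e1 e2 e3 e4
  exact ⟨e0, e1, e2, e3, e4⟩

lemma tone_5 (l : Fin 10 → Fin 5 → K)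
    (h : ∑ a, psi s (syz s 5 a) * mkA s 0 (l a) 0 = 0) :
      s * l 3 0 + -l 7 2 = 0 ∧
      s * l 3 1 + -l 3 2 + (l 5 0 + (-(s * l 7 4) + l 9 2)) = 0 ∧
      -l 3 4 + (l 5 1 + (-l 7 3 + l 9 4)) = 0 ∧
      s * l 3 4 + -l 7 0 = 0 ∧
      -l 3 3 + (l 5 4 + (-l 7 1 + l 9 3)) = 0 := by
  have e : ∀ k, (∑ a, psi s (syz s 5 a) * mkA s 0 (l a) 0).u k = 0 := by
    intro k; rw [h]; rfl
  have e0 := e 0
  have e1 := e 1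
  have e2 := e 2
  have e3 := e 3
  have e4 := e 4
  simp [syz, ev, Fin.sum_univ_succ, mu, psi, algebraMap_eq] at e0 e1 e2 e3 e4
  exact ⟨e0, e1, e2, e3, e4⟩

lemma tone_6 (l : Fin 10 → Fin 5 → K)
    (h : ∑ a, psi s (syz s 6 a) * mkA s 0 (l a) 0 = 0) :
      l 0 0 + (-l 4 2 + (l 6 4 + (s * l 8 0 + -l 9 0))) = 0 ∧
      l 0 1 + -(s * l 0 2) + (-(s * l 4 4) + (l 6 3 + (s * l 8 1 + -l 9 1))) = 0 ∧
      -(s * l 0 4) + -l 4 3 = 0 ∧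
      l 0 4 + (-l 4 0 + (l 6 2 + (s * l 8 4 + -l 9 4))) = 0 ∧
      -(s * l 0 3) + -l 4 1 = 0 := by
  have e : ∀ k, (∑ a, psi s (syz s 6 a) * mkA s 0 (l a) 0).u k = 0 := by
    intro k; rw [h]; rfl
  have e0 := e 0
  have e1 := e 1
  have e2 := e 2
  have e3 := e 3
  have e4 := e 4
  simp [syz, ev, Fin.sum_univ_succ, mu, psi, algebraMap_eq] at e0 e1 e2 e3 e4
  exact ⟨e0, e1, e2, e3, e4⟩

lemma tone_7 (l : Fin 10 → Fin 5 → K)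
    (h : ∑ a, psi s (syz s 7 a) * mkA s 0 (l a) 0 = 0) :
      -(s * l 3 4) + -l 5 2 = 0 ∧
      l 3 0 + -(s * l 3 3) + (-(s * l 5 4) + (l 7 2 + (s * l 8 0 + -l 9 0))) = 0 ∧
      l 3 1 + (-l 5 3 + (l 7 4 + (s * l 8 1 + -l 9 1))) = 0 ∧
      -(s * l 3 2) + -l 5 0 = 0 ∧
      l 3 4 + (-l 5 1 + (l 7 3 + (s * l 8 4 + -l 9 4))) = 0 := by
  have e : ∀ k, (∑ a, psi s (syz s 7 a) * mkA s 0 (l a) 0).u k = 0 := by
    intro k; rw [h]; rfl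
  have e0 := e 0
  have e1 := e 1
  have e2 := e 2
  have e3 := e 3
  have e4 := e 4
  simp [syz, ev, Fin.sum_univ_succ, mu, psi, algebraMap_eq] at e0 e1 e2 e3 e4
  exact ⟨e0, e1, e2, e3, e4⟩

lemma tone_8 (l : Fin 10 → Fin 5 → K)
    (h : ∑ a, psi s (syz s 8 a) * mkA s 0 (l a) 0 = 0) :
      l 2 2 + l 8 0 = 0 ∧
      -l 0 2 + (s * l 2 4 + (-l 6 0 + l 8 1)) = 0 ∧
      -l 0 4 + (l 2 3 + -l 6 1) = 0 ∧
      l 2 0 + l 8 4 = 0 ∧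
      -l 0 3 + (l 2 1 + -l 6 4) = 0 := by
  have e : ∀ k, (∑ a, psi s (syz s 8 a) * mkA s 0 (l a) 0).u k = 0 := by
    intro k; rw [h]; rfl
  have e0 := e 0
  have e1 := e 1
  have e2 := e 2
  have e3 := e 3
  have e4 := e 4
  simp [syz, ev, Fin.sum_univ_succ, mu, psi, algebraMap_eq] at e0 e1 e2 e3 e4
  exact ⟨e0, e1, e2, e3, e4⟩

lemma tone_9 (l : Fin 10 → Fin 5 → K)
    (h : ∑ a, psi s (syz s 9 a) * mkA s 0 (l a) 0 = 0) :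
      l 1 2 + (-l 3 4 + -l 7 0) = 0 ∧
      s * l 1 4 + (-l 3 3 + (-l 7 1 + l 8 0)) = 0 ∧
      l 1 3 + l 8 1 = 0 ∧
      l 1 0 + (-l 3 2 + -l 7 4) = 0 ∧
      l 1 1 + l 8 4 = 0 := by
  have e : ∀ k, (∑ a, psi s (syz s 9 a) * mkA s 0 (l a) 0).u k = 0 := by
    intro k; rw [h]; rfl
  have e0 := e 0
  have e1 := e 1
  have e2 := e 2
  have e3 := e 3
  have e4 := e 4
  simp [syz, ev, Fin.sum_univ_succ, mu, psi, algebraMap_eq] at e0 e1 e2 e3 e4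
  exact ⟨e0, e1, e2, e3, e4⟩

lemma tone_10 (l : Fin 10 → Fin 5 → K)
    (h : ∑ a, psi s (syz s 10 a) * mkA s 0 (l a) 0 = 0) :
      -l 1 2 + (l 2 0 + l 8 4) = 0 ∧
      -(s * l 1 4) + (l 2 1 + (-l 4 2 + l 8 3)) = 0 ∧
      -l 1 3 + -l 4 4 = 0 ∧
      -l 1 0 + (l 2 4 + l 8 2) = 0 ∧
      -l 1 1 + -l 4 3 = 0 := by
  have e : ∀ k, (∑ a, psi s (syz s 10 a) * mkA s 0 (l a) 0).u k = 0 := by
    intro k; rw [h]; rfl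
  have e0 := e 0
  have e1 := e 1
  have e2 := e 2
  have e3 := e 3
  have e4 := e 4
  simp [syz, ev, Fin.sum_univ_succ, mu, psi, algebraMap_eq] at e0 e1 e2 e3 e4
  exact ⟨e0, e1, e2, e3, e4⟩

lemma tone_11 (l : Fin 10 → Fin 5 → K)
    (h : ∑ a, psi s (syz s 11 a) * mkA s 0 (l a) 0 = 0) :
      -l 2 2 + -l 5 4 = 0 ∧
      l 1 0 + (-(s * l 2 4) + (-l 5 3 + l 8 2)) = 0 ∧
      l 1 1 + (-l 2 3 + l 8 4) = 0 ∧
      -l 2 0 + -l 5 2 = 0 ∧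
      l 1 4 + (-l 2 1 + l 8 3) = 0 := by
  have e : ∀ k, (∑ a, psi s (syz s 11 a) * mkA s 0 (l a) 0).u k = 0 := by
    intro k; rw [h]; rfl
  have e0 := e 0
  have e1 := e 1
  have e2 := e 2
  have e3 := e 3
  have e4 := e 4
  simp [syz, ev, Fin.sum_univ_succ, mu, psi, algebraMap_eq] at e0 e1 e2 e3 e4
  exact ⟨e0, e1, e2, e3, e4⟩

lemma tone_12 (l : Fin 10 → Fin 5 → K)
    (h : ∑ a, psi s (syz s 12 a) * mkA s 0 (l a) 0 = 0) :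
      l 1 0 + -l 7 4 = 0 ∧
      l 1 1 + (-l 2 0 + (l 6 2 + -l 7 3)) = 0 ∧
      -l 2 1 + l 6 4 = 0 ∧
      l 1 4 + -l 7 2 = 0 ∧
      -l 2 4 + l 6 3 = 0 := by
  have e : ∀ k, (∑ a, psi s (syz s 12 a) * mkA s 0 (l a) 0).u k = 0 := by
    intro k; rw [h]; rfl
  have e0 := e 0
  have e1 := e 1
  have e2 := e 2
  have e3 := e 3
  have e4 := e 4
  simp [syz, ev, Fin.sum_univ_succ, mu, psi, algebraMap_eq] at e0 e1 e2 e3 e4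
  exact ⟨e0, e1, e2, e3, e4⟩

lemma tone_13 (l : Fin 10 → Fin 5 → K)
    (h : ∑ a, psi s (syz s 13 a) * mkA s 0 (l a) 0 = 0) :
      -l 1 0 + (l 2 4 + l 8 2) = 0 ∧
      -l 1 1 + (l 2 3 + (-l 4 0 + (-l 6 2 + s * l 8 4))) = 0 ∧
      -l 4 1 + (-l 6 4 + l 8 3) = 0 ∧
      -l 1 4 + (l 2 2 + l 8 0) = 0 ∧
      -l 4 4 + (-l 6 3 + l 8 1) = 0 := by
  have e : ∀ k, (∑ a, psi s (syz s 13 a) * mkA s 0 (l a) 0).u k = 0 := by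
    intro k; rw [h]; rfl
  have e0 := e 0
  have e1 := e 1
  have e2 := e 2
  have e3 := e 3
  have e4 := e 4
  simp [syz, ev, Fin.sum_univ_succ, mu, psi, algebraMap_eq] at e0 e1 e2 e3 e4
  exact ⟨e0, e1, e2, e3, e4⟩

lemma tone_14 (l : Fin 10 → Fin 5 → K)
    (h : ∑ a, psi s (syz s 14 a) * mkA s 0 (l a) 0 = 0) :
      l 2 4 + l 5 0 = 0 ∧
      -l 1 2 + (l 2 3 + (-l 4 0 + l 5 1)) = 0 ∧
      -l 1 4 + -l 4 1 = 0 ∧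
      l 2 2 + l 5 4 = 0 ∧
      -l 1 3 + -l 4 4 = 0 := by
  have e : ∀ k, (∑ a, psi s (syz s 14 a) * mkA s 0 (l a) 0).u k = 0 := by
    intro k; rw [h]; rfl
  have e0 := e 0
  have e1 := e 1
  have e2 := e 2
  have e3 := e 3
  have e4 := e 4
  simp [syz, ev, Fin.sum_univ_succ, mu, psi, algebraMap_eq] at e0 e1 e2 e3 e4
  exact ⟨e0, e1, e2, e3, e4⟩

lemma tone (l : Fin 10 → Fin 5 → K)
    (h : ∀ i, ∑ a, psi s (syz s i a) * mkA s 0 (l a) 0 = 0) :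
    ∃ t : Fin 5 → K, ∀ a, l a = transl s t a := by
  obtain ⟨e0_0, e0_1, e0_2, e0_3, e0_4⟩ := tone_0 s l (h 0)
  obtain ⟨e1_0, e1_1, e1_2, e1_3, e1_4⟩ := tone_1 s l (h 1)
  obtain ⟨e2_0, e2_1, e2_2, e2_3, e2_4⟩ := tone_2 s l (h 2)
  obtain ⟨e3_0, e3_1, e3_2, e3_3, e3_4⟩ := tone_3 s l (h 3)
  obtain ⟨e4_0, e4_1, e4_2, e4_3, e4_4⟩ := tone_4 s l (h 4)
  obtain ⟨e5_0, e5_1, e5_2, e5_3, e5_4⟩ := tone_5 s l (h 5)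
  obtain ⟨e6_0, e6_1, e6_2, e6_3, e6_4⟩ := tone_6 s l (h 6)
  obtain ⟨e7_0, e7_1, e7_2, e7_3, e7_4⟩ := tone_7 s l (h 7)
  obtain ⟨e8_0, e8_1, e8_2, e8_3, e8_4⟩ := tone_8 s l (h 8)
  obtain ⟨e9_0, e9_1, e9_2, e9_3, e9_4⟩ := tone_9 s l (h 9)
  obtain ⟨e10_0, e10_1, e10_2, e10_3, e10_4⟩ := tone_10 s l (h 10)
  obtain ⟨e11_0, e11_1, e11_2, e11_3, e11_4⟩ := tone_11 s l (h 11)
  obtain ⟨e12_0, e12_1, e12_2, e12_3, e12_4⟩ := tone_12 s l (h 12)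
  obtain ⟨e13_0, e13_1, e13_2, e13_3, e13_4⟩ := tone_13 s l (h 13)
  obtain ⟨e14_0, e14_1, e14_2, e14_3, e14_4⟩ := tone_14 s l (h 14)
  refine ⟨![l 0 2, l 2 2, l 0 0, l 1 0, -l 4 0], fun a => funext fun k => ?_⟩
  fin_cases a <;> fin_cases k <;> simp [transl] <;> grind

end

end Pool.Agent.H58R2.LGQ
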