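import Pool.Agent.H58R2.LGQ.Lift
import Pool.Agent.H58R2.LGQ.Tone

set_option autoImplicit false

/-! Every lift of `R_s` is trivial. -/

namespace Pool.Agent.H58R2.LGQ

open MvPolynomial

section

variable {K : Type*} [Field K] {c : ℕ} {s : K} {J : Ideal (MvPolynomial (Fin 5 ⊕ Fin c) K)}

lemma isHomogeneous_C_mul_X (a : K) {σ : Type*} (i : σ) : (C a * X i : MvPolynomial σ K).IsHomogeneous 1 := by
  simpa using isHomogeneous_C_mul_X_pow a i 1

lemma psi_sum (a : Fin 5 → K) : psi s (∑ i, C (a i) * X i) = mkA s 0 a 0 := by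
  have : ∀ i, psi s (C (a i) * X i) = a i • ev s i := by
    intro i
    rw [map_mul, psi_X]
    have h1 : psi s (C (a i)) = algebraMap K (Alg K s) (a i) := by
      simpa [MvPolynomial.algebraMap_eq] using (psi s).commutes (a i)
    rw [h1, ← Algebra.smul_def]
  rw [map_sum, Finset.sum_congr rfl (fun i _ => this i)]
  apply Alg.ext
  · simp [Fin.sum_univ_succ, ev]
  · funext k
    fin_cases k <;> simp [Fin.sum_univ_succ, ev]
  · funext k
    simp [Fin.sum_univ_succ, ev]

lemma psi_lin {p : MvPolynomial (Fin 5) K} (hp : p.IsHomogeneous 1) :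
    psi s p = mkA s 0 (fun i => coeff (Finsupp.single i 1) p) 0 := by
  conv_lhs => rw [lin_form hp]
  exact psi_sum _

lemma gen_hom (a : Fin 10) : (gen s a).IsHomogeneous 2 := by
  have h : ∀ i j : Fin 5, (X i * X j : MvPolynomial (Fin 5) K).IsHomogeneous 2 := fun i j =>
    (isHomogeneous_X K i).mul (isHomogeneous_X K j)
  fin_cases a
  · exact h _ _
  · exact h _ _
  · exact h _ _
  · exact h _ _
  · exact (h _ _).sub (h _ _)
  · exact (h _ _).sub (h _ _)
  · exact (h _ _).sub (h _ _)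
  · exact (h _ _).sub (h _ _)
  · exact (h _ _).sub (h _ _)
  · exact (h _ _).sub ((h _ _).C_mul s)

lemma syz_hom (i : Fin 15) (a : Fin 10) : (syz s i a).IsHomogeneous 1 := by
  have h0 : (0 : MvPolynomial (Fin 5) K).IsHomogeneous 1 := isHomogeneous_zero _ _ _
  have h1 : ∀ i : Fin 5, (X i : MvPolynomial (Fin 5) K).IsHomogeneous 1 := isHomogeneous_X K
  have h2 : ∀ i : Fin 5, (-X i : MvPolynomial (Fin 5) K).IsHomogeneous 1 := fun i => (h1 i).neg
  have h3 : ∀ i : Fin 5, (C s * X i : MvPolynomial (Fin 5) K).IsHomogeneous 1 := fun i => (h1 i).C_mul s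
  have h4 : ∀ i j : Fin 5, (-X i + C s * X j : MvPolynomial (Fin 5) K).IsHomogeneous 1 :=
    fun i j => (h2 i).add (h3 j)
  have h5 : ∀ i j : Fin 5, (X i - C s * X j : MvPolynomial (Fin 5) K).IsHomogeneous 1 :=
    fun i j => (h1 i).sub (h3 j)
  fin_cases i <;> fin_cases a <;>
    first | exact h0 | exact h1 _ | exact h2 _ | exact h3 _ | exact h4 _ _ | exact h5 _ _

lemma rho_hom1 (i : Fin 5 ⊕ Fin c) : (rho (K := K) (X i)).IsHomogeneous 1 := by
  cases i with
  | inl i => rw [rho_inl]; exact isHomogeneous_X _ _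
  | inr j => rw [rho_inr]; exact isHomogeneous_zero _ _ _

lemma sg_hom1 (t : Fin c → Fin 5 → K) (i : Fin 5) : (sg t (X i)).IsHomogeneous 1 := by
  simp only [sg, aeval_X]
  apply (isHomogeneous_X _ _).add
  apply IsHomogeneous.sum
  intro j _
  exact isHomogeneous_C_mul_X _ _

lemma Dj_hom {n : ℕ} (j : Fin c) {f : MvPolynomial (Fin 5 ⊕ Fin c) K} (hf : f.IsHomogeneous n) :
    (Dj j f).IsHomogeneous (n - 1) :=
  hom_algHom rho rho_hom1 hf.pderiv

lemma Dj_sg_gen (t : Fin c → Fin 5 → K) (j : Fin c) (a : Fin 10) :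
    Dj j (sg t (gen s a)) = ∑ k, C (transl s (t j) a k) * X k := by
  have h2 : (C (2 : K) : MvPolynomial (Fin 5) K) = 2 := map_ofNat C 2
  fin_cases a <;>
    simp [gen, Dj_sub, Dj_sg_X, transl, Fin.sum_univ_succ, Dj_mul, Dj_C, h2] <;> ring

lemma pd_sg (t : Fin c → Fin 5 → K) (k : Fin 5) (p : MvPolynomial (Fin 5) K) :
    pderiv (Sum.inl k) (sg t p) = sg t (pderiv k p) := by
  classical
  induction p using MvPolynomial.induction_on with
  | C a => simp [sg]
  | add p q hp hq => simp [hp, hq]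
  | mul_X p i hp =>
    have hX : pderiv (Sum.inl k) (sg t (X i)) = sg t (pderiv k (X i)) := by
      simp only [sg, aeval_X, map_add, map_sum, pderiv_mul, pderiv_C, pderiv_X]
      by_cases h : k = i
      · subst h; simp
      · simp [h, Ne.symm h]
    rw [map_mul, pderiv_mul, hp, hX, pderiv_mul]
    simp [map_add, map_mul]

lemma rho_pd (k : Fin 5) (f : MvPolynomial (Fin 5 ⊕ Fin c) K) :
    rho (pderiv (Sum.inl k) f) = pderiv k (rho f) :=
  aeval_sumElim_pderiv_inl f (fun _ => (0 : K)) k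

lemma pd_comm {σ : Type*} (i j : σ) (f : MvPolynomial σ K) :
    pderiv i (pderiv j f) = pderiv j (pderiv i f) := by
  classical
  induction f using MvPolynomial.induction_on with
  | C a => simp
  | add p q hp hq => simp [hp, hq]
  | mul_X p k hp =>
    simp only [pderiv_mul, map_add, hp, pderiv_X]
    have : ∀ a b : σ, pderiv a ((Pi.single b (1 : MvPolynomial σ K) : σ → MvPolynomial σ K) k) = 0 := by
      intro a b
      by_cases h : k = b
      · subst h; simp
      · simp [h]
    rw [this, this]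
    ring

lemma E_x {E : MvPolynomial (Fin 5 ⊕ Fin c) K} (hE : E.IsHomogeneous 2) (h0 : rho E = 0)
    (h1 : ∀ j, Dj j E = 0) (k : Fin 5) : pderiv (Sum.inl k) E = 0 := by
  have hf : (pderiv (Sum.inl k) E).IsHomogeneous 1 := hE.pderiv
  have hr : rho (pderiv (Sum.inl k) E) = 0 := by rw [rho_pd, h0, map_zero]
  have hd : ∀ j, Dj j (pderiv (Sum.inl k) E) = 0 := by
    intro j
    rw [Dj, pd_comm, rho_pd]
    have := h1 j
    rw [Dj] at this
    rw [this, map_zero]
  set f := pderiv (Sum.inl k) E with hfd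
  have hl := lin_form hf
  set a := fun i => coeff (Finsupp.single i 1) f with ha
  have hl' : f = ∑ i, C (a (Sum.inl i)) * X (Sum.inl i) + ∑ j, C (a (Sum.inr j)) * X (Sum.inr j) := by
    rw [hl, Fintype.sum_sum_type]
  have hy : ∀ j, a (Sum.inr j) = 0 := by
    intro j
    have := hd j
    rw [hl', Dj_add, Dj_sum, Dj_sum] at this
    simp only [Dj_mul, Dj_C, Dj_inl, Dj_inr, mul_zero, zero_mul, add_zero, Finset.sum_const_zero, zero_add] at this
    rw [Finset.sum_eq_single j] at this
    · simpa [rho] using this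
    · intro b _ hb; simp [hb]
    · simp
  have hx : ∑ i, C (a (Sum.inl i)) * X i = (0 : MvPolynomial (Fin 5) K) := by
    rw [← hr, hl', map_add, map_sum, map_sum]
    simp [rho]
  have hx' : ∑ i, C (a (Sum.inl i)) * X (Sum.inl i) = (0 : MvPolynomial (Fin 5 ⊕ Fin c) K) := by
    have := congrArg (rename (Sum.inl : Fin 5 → Fin 5 ⊕ Fin c)) hx
    simpa [map_sum] using this
  rw [hl', hx', zero_add]
  apply Finset.sum_eq_zero
  intro j _
  rw [hy j]; simp

theorem Hyp.lift (H : Hyp s J) : ∃ t : Fin c → Fin 5 → K, ∀ a, sg t (gen s a) ∈ J := by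
  choose F0 hF0 hr0 using H.lft
  set F : Fin 10 → MvPolynomial (Fin 5 ⊕ Fin c) K := fun a => homogeneousComponent 2 (F0 a) with hF
  have hFJ : ∀ a, F a ∈ J := fun a => H.hom _ (hF0 a) 2
  have hFh : ∀ a, (F a).IsHomogeneous 2 := fun a => homogeneousComponent_isHomogeneous _ _
  have hFr : ∀ a, rho (F a) = gen s a := by
    intro a
    rw [hF]
    show rho (homogeneousComponent 2 (F0 a)) = _
    rw [← hc_algHom rho rho_hom1, hr0, homogeneousComponent_eq_self (gen_hom a)]
  -- first order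
  have key1 : ∀ j : Fin c, ∃ t : Fin 5 → K, ∀ a, (fun i => coeff (Finsupp.single i 1) (Dj j (F a))) =
      transl s t a := by
    intro j
    apply tone
    intro i
    have hB : ∑ a, sg 0 (syz s i a) * F a ∈ J :=
      Ideal.sum_mem _ (fun a _ => Ideal.mul_mem_left _ _ (hFJ a))
    have hBh : (∑ a, sg 0 (syz s i a) * F a).IsHomogeneous 3 := by
      apply IsHomogeneous.sum
      intro a _
      exact (hom_algHom (sg 0) (sg_hom1 0) (syz_hom i a)).mul (hFh a)
    have hB0 : rho (∑ a, sg 0 (syz s i a) * F a) = 0 := by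
      rw [map_sum]
      simp only [map_mul, rho_sg, hFr]
      exact syz_gen s i
    have := H.deg3_D hB hBh hB0 j
    rw [Dj_sum, map_sum] at this
    rw [← this]
    apply Finset.sum_congr rfl
    intro a _
    rw [Dj_mul, rho_sg, Dj_sg_zero, zero_mul, add_zero, map_mul]
    congr 1
    exact (psi_lin (Dj_hom j (hFh a))).symm
  choose t ht using key1
  refine ⟨t, ?_⟩
  set E : Fin 10 → MvPolynomial (Fin 5 ⊕ Fin c) K := fun a => F a - sg t (gen s a) with hEd
  have hEh : ∀ a, (E a).IsHomogeneous 2 := fun a =>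
    (hFh a).sub (hom_algHom (sg t) (sg_hom1 t) (gen_hom a))
  have hE0 : ∀ a, rho (E a) = 0 := by
    intro a
    rw [hEd]
    show rho (F a - sg t (gen s a)) = 0
    rw [map_sub, hFr, rho_sg, sub_self]
  have hED : ∀ a j, Dj j (E a) = 0 := by
    intro a j
    rw [hEd]
    show Dj j (F a - sg t (gen s a)) = 0
    rw [Dj_sub, Dj_sg_gen, lin_form (p := Dj j (F a)) (Dj_hom j (hFh a)), sub_eq_zero]
    apply Finset.sum_congr rfl
    intro k _
    rw [← ht j a]
  have hC : ∀ i, ∑ a, sg t (syz s i a) * E a = 0 := by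
    intro i
    have e1 : ∑ a, sg t (syz s i a) * E a = ∑ a, sg t (syz s i a) * F a := by
      have : ∑ a, sg t (syz s i a) * E a = ∑ a, sg t (syz s i a) * F a - sg t (∑ a, syz s i a * gen s a) := by
        rw [map_sum, ← Finset.sum_sub_distrib]
        apply Finset.sum_congr rfl
        intro a _
        rw [hEd, map_mul]
        ring
      rw [this, syz_gen, map_zero, sub_zero]
    apply H.deg3_zero
    · rw [e1]
      exact Ideal.sum_mem _ (fun a _ => Ideal.mul_mem_left _ _ (hFJ a))
    · apply IsHomogeneous.sum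
      intro a _
      exact (hom_algHom (sg t) (sg_hom1 t) (syz_hom i a)).mul (hEh a)
    · rw [map_sum]
      apply Finset.sum_eq_zero
      intro a _
      rw [map_mul, hE0, mul_zero]
    · intro j
      rw [Dj_sum]
      apply Finset.sum_eq_zero
      intro a _
      rw [Dj_mul, hED, hE0, mul_zero, mul_zero, add_zero]
  have hC' : ∀ i k, ∑ a, sg t (pderiv k (syz s i a)) * E a = 0 := by
    intro i k
    have := congrArg (pderiv (Sum.inl k)) (hC i)
    rw [map_zero, map_sum] at this
    rw [← this]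
    apply Finset.sum_congr rfl
    intro a _
    rw [pderiv_mul, pd_sg, E_x (hEh a) (hE0 a) (hED a) k, mul_zero, add_zero]
  have z0 : E 0 = 0 := by simpa [syz, Fin.sum_univ_succ, pderiv_X, Pi.single_apply] using hC' 0 1
  have z2 : E 2 = 0 := by simpa [syz, Fin.sum_univ_succ, pderiv_X, Pi.single_apply] using hC' 0 0
  have z1 : E 1 = 0 := by simpa [syz, Fin.sum_univ_succ, pderiv_X, Pi.single_apply] using hC' 1 1
  have z3 : E 3 = 0 := by simpa [syz, Fin.sum_univ_succ, pderiv_X, Pi.single_apply] using hC' 1 0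
  have z4 : E 4 = 0 := by simpa [syz, Fin.sum_univ_succ, pderiv_X, Pi.single_apply] using hC' 4 0
  have z6 : E 6 = 0 := by simpa [syz, Fin.sum_univ_succ, pderiv_X, Pi.single_apply] using hC' 4 4
  have z9 : E 9 = 0 := by simpa [syz, Fin.sum_univ_succ, pderiv_X, Pi.single_apply, z0] using hC' 4 2
  have z5 : E 5 = 0 := by simpa [syz, Fin.sum_univ_succ, pderiv_X, Pi.single_apply] using hC' 5 1
  have z7 : E 7 = 0 := by simpa [syz, Fin.sum_univ_succ, pderiv_X, Pi.single_apply] using hC' 5 4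
  have z8 : E 8 = 0 := by simpa [syz, Fin.sum_univ_succ, pderiv_X, Pi.single_apply] using hC' 8 0
  have hall : ∀ a, E a = 0 := by
    intro a
    fin_cases a
    · exact z0
    · exact z1
    · exact z2
    · exact z3
    · exact z4
    · exact z5
    · exact z6
    · exact z7
    · exact z8
    · exact z9
  intro a
  have : sg t (gen s a) = F a := by
    have := hall a
    rw [hEd] at this
    exact (sub_eq_zero.mp this).symm
  rw [this]
  exact hFJ a

lemma sg_mem {t : Fin c → Fin 5 → K} (ht : ∀ a, sg t (gen s a) ∈ J) {p : MvPolynomial (Fin 5) K}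
    (hp : psi s p = 0) : sg t p ∈ J := by
  have h1 : genI s ≤ J.comap (sg t) := by
    rw [genI, Ideal.span_le]
    rintro _ ⟨a, rfl⟩
    exact ht a
  exact h1 ((mem_genI_iff s p).mpr hp)

lemma Hyp.deg2_eq (H : Hyp s J) {t : Fin c → Fin 5 → K} (ht : ∀ a, sg t (gen s a) ∈ J)
    {h : MvPolynomial (Fin 5 ⊕ Fin c) K} (hh : h ∈ J) (hhom : h.IsHomogeneous 2) : h = sg t (rho h) := by
  rw [← sub_eq_zero]
  apply H.deg2
  · exact Ideal.sub_mem _ hh (sg_mem ht (H.red _ hh))
  · exact hhom.sub (hom_algHom (sg t) (sg_hom1 t) (hom_algHom rho rho_hom1 hhom))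
  · rw [map_sub, rho_sg, sub_self]

end

end Pool.Agent.H58R2.LGQ
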