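import Pool.Agent.H58R2.LGQ.Build

set_option autoImplicit false

/-! `R_s` is not LG-quadratic. -/

namespace Pool.Agent.H58R2.LGQ

open MvPolynomial

section

variable {K : Type*} [Field K] {s : K} {m : ℕ} {J : Ideal (MvPolynomial (Fin m) K)}

/-- the leading monomials of `J` are generated by those of degree two -/
def Lead (J : Ideal (MvPolynomial (Fin m) K)) (ord : MonomialOrder (Fin m)) : Prop :=
  Ideal.span ((fun f : MvPolynomial (Fin m) K => MvPolynomial.monomial (ord.degree f) (1 : K)) ''
      {f | f ∈ J ∧ f ≠ 0}) ≤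
  Ideal.span ((fun f : MvPolynomial (Fin m) K => MvPolynomial.monomial (ord.degree f) (1 : K)) ''
      {f | f ∈ J ∧ f ≠ 0 ∧ (ord.degree f).degree = 2})

lemma lead_exists {ord : MonomialOrder (Fin m)} (hG : Lead J ord) {f : MvPolynomial (Fin m) K} (hf : f ∈ J)
    (h0 : f ≠ 0) : ∃ g ∈ J, g ≠ 0 ∧ (ord.degree g).degree = 2 ∧ ord.degree g ≤ ord.degree f := by
  have h1 : (MvPolynomial.monomial (ord.degree f) (1 : K)) ∈ Ideal.span
      ((fun f : MvPolynomial (Fin m) K => MvPolynomial.monomial (ord.degree f) (1 : K)) ''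
      {f | f ∈ J ∧ f ≠ 0 ∧ (ord.degree f).degree = 2}) :=
    hG (Ideal.subset_span ⟨f, ⟨hf, h0⟩, rfl⟩)
  have h2 : (fun f : MvPolynomial (Fin m) K => MvPolynomial.monomial (ord.degree f) (1 : K)) ''
      {f | f ∈ J ∧ f ≠ 0 ∧ (ord.degree f).degree = 2} =
      (fun s => MvPolynomial.monomial s (1 : K)) '' (ord.degree '' {f | f ∈ J ∧ f ≠ 0 ∧ (ord.degree f).degree = 2}) := by
    rw [Set.image_image]
  rw [h2, mem_ideal_span_monomial_image] at h1
  obtain ⟨α, ⟨g, ⟨hg, hg0, hg2⟩, rfl⟩, hle⟩ := h1 (ord.degree f) (by simp [mem_support_iff])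
  exact ⟨g, hg, hg0, hg2, hle⟩

lemma hom_degree {d : ℕ} {f : MvPolynomial (Fin m) K} (hh : f.IsHomogeneous d) {α : Fin m →₀ ℕ}
    (h : coeff α f ≠ 0) : α.degree = d := by
  have := hh h
  rw [Finsupp.degree_eq_weight_one]
  exact this

lemma coeff_deg_ne {ord : MonomialOrder (Fin m)} {f : MvPolynomial (Fin m) K} (h0 : f ≠ 0) :
    coeff (ord.degree f) f ≠ 0 := by
  rw [MonomialOrder.coeff_degree_ne_zero_iff]; exact h0

lemma low {ord : MonomialOrder (Fin m)} (hG : Lead J ord) : ∀ f ∈ J, ∀ d ≤ 1, f.IsHomogeneous d → f = 0 := by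
  intro f hf d hd hh
  by_contra h0
  obtain ⟨g, _, _, hg2, hle⟩ := lead_exists hG hf h0
  have h1 : (ord.degree f).degree = d := hom_degree hh (coeff_deg_ne h0)
  have h3 := Finsupp.degree_mono hle
  omega

lemma degree_one_single {ord : MonomialOrder (Fin m)} {f : MvPolynomial (Fin m) K} (hh : f.IsHomogeneous 1)
    (h0 : f ≠ 0) : ∃ i, ord.degree f = Finsupp.single i 1 := by
  have h1 : (ord.degree f).degree = 1 := hom_degree hh (coeff_deg_ne h0)
  have h2 : ord.degree f ∈ {d : Fin m →₀ ℕ | d.degree = 1} := h1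
  rw [← Finsupp.range_single_one] at h2
  obtain ⟨i, hi⟩ := h2
  exact ⟨i, hi.symm⟩

/-- evaluation at linear elements of a homogeneous polynomial, in terms of coefficients -/
lemma eval_eq (L : Fin m → Alg K s) (f : MvPolynomial (Fin m) K) :
    aeval L f = ∑ α ∈ f.support, coeff α f • ∏ i, L i ^ α i := by
  rw [aeval_def, eval₂_eq']
  apply Finset.sum_congr rfl
  intro α _
  rw [Algebra.smul_def]

theorem contra (hs : ∀ t : Fin 5 → K, mu s t t = 0 → t = 0) (hJ : ∀ f ∈ J, ∀ d, homogeneousComponent d f ∈ J)
    {ord : MonomialOrder (Fin m)} (hG : Lead J ord) {c : ℕ}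
    (Ψ : MvPolynomial (Fin 5 ⊕ Fin c) K →ₐ[K] MvPolynomial (Fin m) K)
    (hΨ1 : ∀ i, (Ψ (X i)).IsHomogeneous 1) (hΨs : Function.Surjective Ψ) (H : Hyp s (J.comap Ψ)) : False := by
  obtain ⟨t, ht⟩ := H.lift
  set ξ : MvPolynomial (Fin 5) K →ₐ[K] MvPolynomial (Fin m) K := Ψ.comp (sg t) with hξ
  have hξa : ∀ p, ξ p = Ψ (sg t p) := fun p => rfl
  have hξ1 : ∀ {n : ℕ} {p : MvPolynomial (Fin 5) K}, p.IsHomogeneous n → (ξ p).IsHomogeneous n := by
    intro n p hp
    rw [hξa]
    exact hom_algHom Ψ hΨ1 (hom_algHom (sg t) (sg_hom1 t) hp)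
  have hξJ : ∀ p, psi s p = 0 → ξ p ∈ J := fun p hp => sg_mem ht hp
  have hξinj : ∀ p : MvPolynomial (Fin 5) K, p.IsHomogeneous 1 → ξ p = 0 → p = 0 := by
    intro p hp h0
    have h1 : sg t p = 0 := by
      apply H.nolin _ _ (hom_algHom (sg t) (sg_hom1 t) hp)
      show Ψ (sg t p) ∈ J
      rw [← hξa, h0]
      exact J.zero_mem
    rw [← rho_sg t p, h1, map_zero]
  -- the smallest leading variable
  obtain ⟨p0, ⟨hp0, hp0'⟩, hmin⟩ := (InvImage.wf (fun p : MvPolynomial (Fin 5) K => ord.toSyn (ord.degree (ξ p)))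
    (wellFounded_lt)).has_min {p | p.IsHomogeneous 1 ∧ p ≠ 0} ⟨X 0, isHomogeneous_X _ _, X_ne_zero _⟩
  have hx0 : ξ p0 ≠ 0 := fun h => hp0' (hξinj _ hp0 h)
  obtain ⟨j, hj⟩ := degree_one_single (ord := ord) (hξ1 hp0) hx0
  have hminj : ∀ p : MvPolynomial (Fin 5) K, p.IsHomogeneous 1 → p ≠ 0 →
      ord.toSyn (Finsupp.single j 1) ≤ ord.toSyn (ord.degree (ξ p)) := by
    intro p hp hp'
    have := hmin p ⟨hp, hp'⟩
    rw [← hj]
    exact not_lt.mp this
  -- a quadric with leading monomial `z_j ^ 2`
  obtain ⟨l0, hl0⟩ : ∃ l : Fin 5 → K, psi s p0 = mkA s 0 l 0 := ⟨_, psi_lin hp0⟩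
  have hcube : ξ p0 ^ 3 ∈ J := by
    rw [← map_pow]
    apply hξJ
    rw [map_pow, hl0]
    apply Alg.ext <;> simp [pow_succ]
  obtain ⟨g, hgJ, hg0, hg2, hgle⟩ := lead_exists hG hcube (pow_ne_zero _ hx0)
  have hgd : ord.degree g = Finsupp.single j 2 := by
    rw [MonomialOrder.degree_pow, hj] at hgle
    ext i
    by_cases hi : i = j
    · subst hi
      have h1 : ord.degree g = Finsupp.single i (ord.degree g i) := by
        ext k
        by_cases hk : k = i
        · subst hk; simp
        · have := hgle k
          simp [Finsupp.single_apply, Ne.symm hk] at this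
          simp [Finsupp.single_apply, Ne.symm hk, this]
      rw [h1, Finsupp.degree_single] at hg2
      simpa using hg2
    · have := hgle i
      simp [Finsupp.single_apply, Ne.symm hi] at this
      simp [Finsupp.single_apply, Ne.symm hi, this]
  set g2 := homogeneousComponent 2 g with hg2d
  have hg2J : g2 ∈ J := hJ g hgJ 2
  have hg2h : g2.IsHomogeneous 2 := homogeneousComponent_isHomogeneous _ _
  have hg2c : coeff (Finsupp.single j 2) g2 ≠ 0 := by
    rw [hg2d, coeff_homogeneousComponent, Finsupp.degree_single, if_pos rfl, ← hgd]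
    exact coeff_deg_ne hg0
  have hg2le : ∀ α, coeff α g2 ≠ 0 → ord.toSyn α ≤ ord.toSyn (Finsupp.single j 2) := by
    intro α hα
    rw [hg2d, coeff_homogeneousComponent] at hα
    have h1 : coeff α g ≠ 0 := by
      intro h; apply hα; rw [h]; simp
    rw [← hgd]
    exact ord.le_degree (mem_support_iff.mpr h1)
  -- pull it back
  obtain ⟨Q, hQ, hQ0⟩ : ∃ Q : MvPolynomial (Fin 5) K, g2 = ξ Q ∧ psi s Q = 0 := by
    obtain ⟨h0, hh0⟩ := hΨs g2
    have h1 : Ψ (homogeneousComponent 2 h0) = g2 := by
      rw [← hc_algHom Ψ hΨ1, hh0, homogeneousComponent_eq_self hg2h]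
    have h2 : homogeneousComponent 2 h0 ∈ J.comap Ψ := by
      show Ψ (homogeneousComponent 2 h0) ∈ J
      rw [h1]; exact hg2J
    have h3 := H.deg2_eq ht h2 (homogeneousComponent_isHomogeneous _ _)
    refine ⟨rho (homogeneousComponent 2 h0), ?_, H.red _ h2⟩
    rw [hξa, ← h3, h1]
  -- truncation and a left inverse
  classical
  set small : Fin m → Prop := fun i => ord.toSyn (Finsupp.single i 1) < ord.toSyn (Finsupp.single j 1) with hsm
  set η : (Fin 5 → K) →ₗ[K] (Fin m → K) :=
    { toFun := fun a i => if small i then 0 else coeff (Finsupp.single i 1) (ξ (∑ k, C (a k) * X k))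
      map_add' := by
        intro a b
        funext i
        simp only [Pi.add_apply, C_add, add_mul, Finset.sum_add_distrib, map_add, coeff_add]
        split_ifs <;> simp
      map_smul' := by
        intro r a
        funext i
        have : ∑ k, C ((r • a) k) * X k = C r * ∑ k, C (a k) * (X k : MvPolynomial (Fin 5) K) := by
          simp [Finset.mul_sum, mul_assoc]
        simp only [RingHom.id_apply, Pi.smul_apply, smul_eq_mul]
        have h2 : ξ (∑ k, C ((r • a) k) * X k) = C r * ξ (∑ k, C (a k) * X k) := by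
          rw [this, map_mul]
          congr 1
          exact ξ.commutes r
        have h3 : ∑ x, C (r * a x) * (X x : MvPolynomial (Fin 5) K) = ∑ k, C ((r • a) k) * X k := rfl
        rw [h3, h2, coeff_C_mul]
        split_ifs <;> simp } with hη
  have hηker : LinearMap.ker η = ⊥ := by
    rw [LinearMap.ker_eq_bot']
    intro a ha
    by_contra hne
    set p : MvPolynomial (Fin 5) K := ∑ k, C (a k) * X k with hp
    have hph : p.IsHomogeneous 1 := by
      apply IsHomogeneous.sum
      intro k _
      exact isHomogeneous_C_mul_X _ _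
    have hpne : p ≠ 0 := by
      intro h
      apply hne
      have h1 : psi s p = mkA s 0 a 0 := psi_sum a
      rw [h, map_zero] at h1
      exact (congrArg Alg.v h1).symm
    have hxp : ξ p ≠ 0 := fun h => hpne (hξinj _ hph h)
    obtain ⟨i, hi⟩ := degree_one_single (ord := ord) (hξ1 hph) hxp
    have h1 := hminj p hph hpne
    rw [hi] at h1
    have h2 := congrFun ha i
    have h3 : ¬ small i := not_lt.mpr h1
    have h4 : (if small i then 0 else coeff (Finsupp.single i 1) (ξ p)) = 0 := h2
    rw [if_neg h3, ← hi] at h4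
    exact coeff_deg_ne hxp h4
  obtain ⟨lam, hlam⟩ := LinearMap.exists_leftInverse_of_injective η hηker
  set L : Fin m → Alg K s := fun i => if small i then 0 else mkA s 0 (lam (Pi.single i 1)) 0 with hL
  have hLlin : ∀ f : MvPolynomial (Fin m) K, f.IsHomogeneous 1 → aeval L f =
      mkA s 0 (lam (fun i => if small i then 0 else coeff (Finsupp.single i 1) f)) 0 := by
    intro f hf
    conv_lhs => rw [lin_form hf]
    rw [map_sum]
    have h1 : ∀ i, aeval L (C (coeff (Finsupp.single i 1) f) * X i) =
        mkA s 0 (lam (Pi.single i (if small i then 0 else coeff (Finsupp.single i 1) f))) 0 := by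
      intro i
      rw [map_mul, aeval_X, aeval_C, ← Algebra.smul_def]
      by_cases hi : small i
      · rw [hL]
        simp only [hi, if_true, smul_zero]
        rw [Pi.single_zero, map_zero]
        apply Alg.ext <;> simp
      · rw [hL]
        simp only [hi, if_false]
        have h2 : (Pi.single i (coeff (Finsupp.single i 1) f) : Fin m → K) =
            coeff (Finsupp.single i 1) f • Pi.single i 1 := by
          rw [← Pi.single_smul]; simp
        rw [h2, map_smul]
        apply Alg.ext <;> simp
    rw [Finset.sum_congr rfl (fun i _ => h1 i)]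
    apply Alg.ext
    · rw [sum_r]; simp
    · rw [sum_v]
      simp only [mkA_v]
      rw [← map_sum]
      congr 1
      exact Finset.univ_sum_single _
    · rw [sum_u]; simp
  have hLξ : ∀ p, aeval L (ξ p) = psi s p := by
    have h1 : (aeval L).comp ξ = psi s := by
      apply MvPolynomial.algHom_ext
      intro k
      have h2 : ((aeval L).comp ξ) (X k) = aeval L (ξ (X k)) := rfl
      rw [h2, hLlin _ (hξ1 (isHomogeneous_X K k)), psi_X]
      have h3 : (fun i => if small i then 0 else coeff (Finsupp.single i 1) (ξ (X k))) = η (Pi.single k 1) := by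
        funext i
        have h4 : ∑ k', C ((Pi.single k 1 : Fin 5 → K) k') * X k' = (X k : MvPolynomial (Fin 5) K) := by
          rw [Finset.sum_eq_single k]
          · simp
          · intro b _ hb; simp [hb]
          · simp
        show _ = (if small i then 0 else coeff (Finsupp.single i 1) (ξ (∑ k', C ((Pi.single k 1 : Fin 5 → K) k') * X k')))
        rw [h4]
      rw [h3]
      have h5 : lam (η (Pi.single k 1)) = Pi.single k 1 := DFunLike.congr_fun hlam _
      rw [h5]
      rfl
    intro p
    exact DFunLike.congr_fun h1 p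
  -- value at `g2`
  have hval : aeval L g2 = coeff (Finsupp.single j 2) g2 • (L j) ^ 2 := by
    rw [eval_eq, Finset.sum_eq_single (Finsupp.single j 2)]
    · congr 1
      rw [Finset.prod_eq_single j]
      · simp
      · intro b _ hb
        simp [Finsupp.single_apply, Ne.symm hb]
      · simp
    · intro α hα hne
      have hαc := mem_support_iff.mp hα
      have hle := hg2le α hαc
      have hdeg : α.degree = 2 := hom_degree hg2h hαc
      -- some variable in `α` is small
      have hex : ∃ i, α i ≠ 0 ∧ small i := by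
        by_contra hcon
        push Not at hcon
        have h1 : ord.toSyn (Finsupp.single j 2) ≤ ord.toSyn α := by
          have h2 : ord.toSyn α = ∑ i, α i • ord.toSyn (Finsupp.single i 1) := by
            conv_lhs => rw [← Finsupp.univ_sum_single α]
            rw [map_sum]
            apply Finset.sum_congr rfl
            intro i _
            rw [← map_nsmul]
            simp
          have h3 : ord.toSyn (Finsupp.single j 2) = ∑ i, α i • ord.toSyn (Finsupp.single j 1) := by
            rw [← Finset.sum_smul, ← map_nsmul]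
            have : ∑ i, α i = 2 := by
              rw [← hdeg, Finsupp.degree_eq_sum]
            rw [this]
            simp
          rw [h2, h3]
          apply Finset.sum_le_sum
          intro i _
          by_cases hi : α i = 0
          · simp [hi]
          · exact nsmul_le_nsmul_right (not_lt.mp (hcon i hi)) _
        apply hne
        exact ord.toSyn.injective (le_antisymm hle h1)
      obtain ⟨i, hi, hsi⟩ := hex
      have : ∏ i, L i ^ α i = 0 := by
        apply Finset.prod_eq_zero (Finset.mem_univ i)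
        rw [hL]
        simp only [hsi, if_true]
        exact zero_pow hi
      rw [this, smul_zero]
    · intro h
      exfalso
      exact h (mem_support_iff.mpr hg2c)
  have hLj : (L j) ^ 2 = 0 := by
    rw [hQ, hLξ, hQ0] at hval
    have := hval.symm
    rcases smul_eq_zero.mp this with h | h
    · rw [← hQ] at h
      exact absurd h hg2c
    · exact h
  have hval0 : aeval L (ξ p0) = coeff (Finsupp.single j 1) (ξ p0) • L j := by
    rw [eval_eq, Finset.sum_eq_single (Finsupp.single j 1)]
    · congr 1
      rw [Finset.prod_eq_single j]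
      · simp
      · intro b _ hb
        simp [Finsupp.single_apply, Ne.symm hb]
      · simp
    · intro α hα hne
      have hαc := mem_support_iff.mp hα
      have hdeg : α.degree = 1 := hom_degree (hξ1 hp0) hαc
      have h2 : α ∈ {d : Fin m →₀ ℕ | d.degree = 1} := hdeg
      rw [← Finsupp.range_single_one] at h2
      obtain ⟨i, rfl⟩ := h2
      have hle : ord.toSyn (Finsupp.single i 1) ≤ ord.toSyn (Finsupp.single j 1) := by
        rw [← hj]; exact ord.le_degree hα
      have hsi : small i := lt_of_le_of_ne hle (fun h => hne (ord.toSyn.injective h))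
      have : ∏ k, L k ^ (Finsupp.single i 1 : Fin m →₀ ℕ) k = 0 := by
        apply Finset.prod_eq_zero (Finset.mem_univ i)
        rw [hL]
        simp [hsi]
      rw [this, smul_zero]
    · intro h
      exfalso
      apply h
      rw [← hj]
      exact mem_support_iff.mpr (coeff_deg_ne hx0)
  rw [hLξ, hl0] at hval0
  have hsq : mkA s 0 l0 0 ^ 2 = 0 := by
    rw [hval0, smul_pow, hLj, smul_zero]
  have hmu : mu s l0 l0 = 0 := by
    have := congrArg Alg.u hsq
    simpa [pow_two] using this
  have hl00 := hs l0 hmu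
  apply hp0'
  have h1 := psi_lin (s := s) hp0
  rw [hl0, hl00] at h1
  have h2 := congrArg Alg.v h1
  rw [lin_form hp0]
  apply Finset.sum_eq_zero
  intro i _
  have h3 : (0 : K) = coeff (Finsupp.single i 1) p0 := congrFun h2 i
  rw [← h3]
  simp

end

end Pool.Agent.H58R2.LGQ
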