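import Pool.Agent.H58R2.LGQ.Res
import Pool.Agent.H58R2.LGQ.Main

set_option autoImplicit false

/-! The quotient presentation of `R_s`, its linear resolution, and absence of square-zero linear forms. -/

namespace Pool.Agent.H58R2.LGQ

open MvPolynomial

section

variable {K : Type*} [Field K]

lemma no_square_aux {s a b c d e : K} (h0 : s ≠ 0) (h8 : s ≠ 8) (h16 : s ≠ -16)
    (e0 : a * a + (c * e + e * c) = 0) (e1 : a * b + b * a + (c * d + d * c) + s * (e * e) = 0)
    (e2 : b * b + (d * e + e * d) = 0) (e3 : a * e + e * a + c * c = 0) (e4 : b * e + e * b + d * d = 0) :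
    a = 0 ∧ b = 0 ∧ c = 0 ∧ d = 0 ∧ e = 0 := by
  by_cases he : e = 0
  · subst he
    simp at e0 e2 e3 e4
    exact ⟨e0, e2, e3, e4, rfl⟩
  exfalso
  by_cases h2 : (2 : K) = 0
  · have : s * (e * e) = 0 := by linear_combination e1 - (a * b + c * d) * h2
    rcases mul_eq_zero.mp this with h | h
    · exact h0 h
    · exact he (mul_self_eq_zero.mp h)
  have star : 2 * s * e ^ 4 + 4 * e ^ 2 * (a * b) + (a * b) ^ 2 = 0 := by
    linear_combination 2 * e ^ 2 * e1 + (b * b) * e0 - (2 * c * e) * e2
  have ha : a * (a ^ 3 + 8 * e ^ 3) = 0 := by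
    linear_combination (a * a - 2 * c * e) * e0 + 4 * e ^ 2 * e3
  have hb : b * (b ^ 3 + 8 * e ^ 3) = 0 := by
    linear_combination (b * b - 2 * d * e) * e2 + 4 * e ^ 2 * e4
  have he4 : 2 * e ^ 4 ≠ 0 := mul_ne_zero h2 (pow_ne_zero _ he)
  rcases mul_eq_zero.mp ha with h | ha
  · rw [h] at star
    have : (2 * e ^ 4) * s = 0 := by linear_combination star
    rcases mul_eq_zero.mp this with h | h
    · exact he4 h
    · exact h0 h
  rcases mul_eq_zero.mp hb with h | hb
  · rw [h] at star
    have : (2 * e ^ 4) * s = 0 := by linear_combination star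
    rcases mul_eq_zero.mp this with h | h
    · exact he4 h
    · exact h0 h
  have ht : (a * b - 4 * e ^ 2) * ((a * b) ^ 2 + 4 * e ^ 2 * (a * b) + 16 * e ^ 4) = 0 := by
    linear_combination b ^ 3 * ha - 8 * e ^ 3 * hb
  rcases mul_eq_zero.mp ht with h | h
  · have : (2 * e ^ 4) * (s + 16) = 0 := by
      linear_combination star - (a * b + 8 * e ^ 2) * h
    rcases mul_eq_zero.mp this with h | h
    · exact he4 h
    · exact h16 (by linear_combination h)
  · have : (2 * e ^ 4) * (s - 8) = 0 := by linear_combination star - h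
    rcases mul_eq_zero.mp this with h | h
    · exact he4 h
    · exact h8 (by linear_combination h)

lemma no_square {s : K} (h0 : s ≠ 0) (h8 : s ≠ 8) (h16 : s ≠ -16) (t : Fin 5 → K) (h : mu s t t = 0) : t = 0 := by
  have e0 := congrFun h 0
  have e1 := congrFun h 1
  have e2 := congrFun h 2
  have e3 := congrFun h 3
  have e4 := congrFun h 4
  obtain ⟨a0, a1, a2, a3, a4⟩ := no_square_aux h0 h8 h16 e0 e1 e2 e3 e4
  funext i
  fin_cases i
  · exact a0
  · exact a1
  · exact a2
  · exact a3
  · exact a4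

variable (s : K)

attribute [local instance] MvPolynomial.gradedAlgebra in
lemma genI_hom : ∀ f ∈ genI s, ∀ d : ℕ, homogeneousComponent d f ∈ genI s := by
  intro f hf d
  apply homogeneousComponent_mem_of_mem _ hf
  apply Ideal.homogeneous_span
  rintro _ ⟨a, rfl⟩
  exact ⟨2, gen_hom a⟩

lemma genI_ne_top : genI s ≠ ⊤ := by
  intro h
  have : (1 : MvPolynomial (Fin 5) K) ∈ genI s := by rw [h]; trivial
  rw [mem_genI_iff, map_one] at this
  exact one_ne_zero this

/-- the isomorphism of the quotient with `R_s` -/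
noncomputable def eq : (MvPolynomial (Fin 5) K ⧸ genI s) ≃ₐ[K] Alg K s :=
  AlgEquiv.ofBijective (Ideal.Quotient.liftₐ (genI s) (psi s) (fun a ha => (mem_genI_iff s a).mp ha)) (by
    constructor
    · rw [injective_iff_map_eq_zero]
      intro x hx
      obtain ⟨p, rfl⟩ := Ideal.Quotient.mk_surjective x
      rw [Ideal.Quotient.eq_zero_iff_mem, mem_genI_iff]
      exact hx
    · intro y
      obtain ⟨p, hp⟩ := psi_surjective s y
      exact ⟨Ideal.Quotient.mk _ p, hp⟩)

lemma eq_mk (p : MvPolynomial (Fin 5) K) : eq s (Ideal.Quotient.mk _ p) = psi s p := rfl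

lemma eq_symm_psi (p : MvPolynomial (Fin 5) K) : (eq s).symm (psi s p) = Ideal.Quotient.mk _ p := by
  rw [← eq_mk, AlgEquiv.symm_apply_apply]

theorem linear_resolution_quot :
    ∃ b : ℕ → ℕ, ∃ D : (i : ℕ) → Matrix (Fin (b i)) (Fin (b (i + 1))) (MvPolynomial (Fin 5) K ⧸ genI s),
      (∀ i j k, ∃ p : MvPolynomial (Fin 5) K, p.IsHomogeneous 1 ∧ D i j k = Ideal.Quotient.mk (genI s) p) ∧
      b 0 = 1 ∧
      (∀ v : Fin (b 0) → MvPolynomial (Fin 5) K ⧸ genI s,
        (∃ w, Matrix.mulVec (D 0) w = v) ↔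
          ∀ j, v j ∈ Ideal.span (Set.range fun t : Fin 5 => Ideal.Quotient.mk (genI s) (MvPolynomial.X t))) ∧
      (∀ i, D i * D (i + 1) = 0) ∧
      (∀ i (v : Fin (b (i + 1)) → MvPolynomial (Fin 5) K ⧸ genI s), Matrix.mulVec (D i) v = 0 →
        ∃ w, Matrix.mulVec (D (i + 1)) w = v) := by
  obtain ⟨b, D, hlin, hb0, hbase, hcomp, hex⟩ := linear_resolution K s
  have key : ∀ i (w : Fin (b (i + 1)) → MvPolynomial (Fin 5) K ⧸ genI s),
      (fun j => eq s ((Matrix.mulVec ((D i).map (eq s).symm) w) j)) = Matrix.mulVec (D i) (fun j => eq s (w j)) := by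
    intro i w
    funext j
    simp only [Matrix.mulVec, dotProduct, Matrix.map_apply, map_sum, map_mul, AlgEquiv.apply_symm_apply]
  have key2 : ∀ i (w : Fin (b (i + 1)) → Alg K s),
      Matrix.mulVec ((D i).map (eq s).symm) (fun j => (eq s).symm (w j)) = fun j => (eq s).symm (Matrix.mulVec (D i) w j) := by
    intro i w
    funext j
    simp only [Matrix.mulVec, dotProduct, Matrix.map_apply, map_sum, map_mul]
  refine ⟨b, fun i => (D i).map (eq s).symm, ?_, hb0, ?_, ?_, ?_⟩
  · intro i j k
    obtain ⟨x, hx⟩ := hlin i j k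
    refine ⟨∑ t, C (x t) * X t, ?_, ?_⟩
    · apply IsHomogeneous.sum
      intro t _
      exact isHomogeneous_C_mul_X _ _
    · show (eq s).symm (D i j k) = _
      rw [hx, ← psi_sum, eq_symm_psi]
  · intro v
    have h := hbase (fun j => eq s (v j))
    have hspan : ∀ x : MvPolynomial (Fin 5) K ⧸ genI s, x ∈ Ideal.span (Set.range fun t : Fin 5 =>
        Ideal.Quotient.mk (genI s) (MvPolynomial.X t)) ↔ eq s x ∈ Ideal.span (Set.range (ev s)) := by
      intro x
      rw [Ideal.mem_span_range_iff_exists_fun, Ideal.mem_span_range_iff_exists_fun]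
      constructor
      · rintro ⟨c, rfl⟩
        refine ⟨fun t => eq s (c t), ?_⟩
        simp only [map_sum, map_mul, eq_mk, psi_X]
      · rintro ⟨c, hc⟩
        refine ⟨fun t => (eq s).symm (c t), ?_⟩
        apply (eq s).injective
        rw [← hc]
        simp only [map_sum, map_mul, eq_mk, psi_X, AlgEquiv.apply_symm_apply]
    simp only [hspan]
    rw [← h]
    constructor
    · rintro ⟨w, rfl⟩
      exact ⟨fun j => eq s (w j), (key 0 w).symm⟩
    · rintro ⟨w, hw⟩
      refine ⟨fun j => (eq s).symm (w j), ?_⟩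
      have := key2 0 w
      refine this.trans ?_
      rw [hw]
      funext j
      simp
  · intro i
    have : (D i).map (eq s).symm * (D (i + 1)).map (eq s).symm = (D i * D (i + 1)).map (eq s).symm := by
      ext j k
      simp [Matrix.mul_apply]
    simp only [this, hcomp]
    ext j k
    simp
  · intro i v hv
    have h1 : Matrix.mulVec (D i) (fun j => eq s (v j)) = 0 := by
      rw [← key]
      funext j
      rw [hv]
      simp
    obtain ⟨w, hw⟩ := hex i _ h1
    refine ⟨fun j => (eq s).symm (w j), ?_⟩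
    have := key2 (i + 1) w
    refine this.trans ?_
    rw [hw]
    funext j
    simp

end

end Pool.Agent.H58R2.LGQ
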