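import Pool.Agent.H58R2.LGQ.Ker

set_option autoImplicit false

/-! The linear resolution of the residue field of `R_s`. -/

namespace Pool.Agent.H58R2.LGQ

open MvPolynomial

section

variable {K : Type*} [Field K] {s : K}

/-- standard basis vector -/
def e5 (K : Type*) [Field K] (i : Fin 5) : Fin 5 → K := Pi.single i 1

lemma sum_r {ι : Type*} (u : Finset ι) (f : ι → Alg K s) : (∑ i ∈ u, f i).r = ∑ i ∈ u, (f i).r :=
  map_sum (AddMonoidHom.mk' (Alg.r : Alg K s → K) (fun _ _ => rfl)) f u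

lemma sum_v {ι : Type*} (u : Finset ι) (f : ι → Alg K s) : (∑ i ∈ u, f i).v = ∑ i ∈ u, (f i).v :=
  map_sum (AddMonoidHom.mk' (Alg.v : Alg K s → Fin 5 → K) (fun _ _ => rfl)) f u

lemma sum_u {ι : Type*} (u : Finset ι) (f : ι → Alg K s) : (∑ i ∈ u, f i).u = ∑ i ∈ u, (f i).u :=
  map_sum (AddMonoidHom.mk' (Alg.u : Alg K s → Fin 5 → K) (fun _ _ => rfl)) f u

lemma mu_sum_right {ι : Type*} (u : Finset ι) (x : Fin 5 → K) (f : ι → Fin 5 → K) :
    mu s x (∑ i ∈ u, f i) = ∑ i ∈ u, mu s x (f i) :=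
  map_sum (AddMonoidHom.mk' (mu s x) (fun _ _ => mu_add_right _ _ _)) f u

lemma mu_sub_right (x y z : Fin 5 → K) : mu s x (y - z) = mu s x y - mu s x z :=
  map_sub (AddMonoidHom.mk' (mu s x) (fun _ _ => mu_add_right _ _ _)) y z

lemma mul_formula (x : Fin 5 → K) (w : Alg K s) :
    mkA s 0 x 0 * w = mkA s 0 (w.r • x) (mu s x w.v) := by
  apply Alg.ext <;> simp

/-- a step of the resolution -/
structure Stage (K : Type*) [Field K] (s : K) where
  /-- rows -/
  p : ℕ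
  /-- columns -/
  q : ℕ
  /-- linear entries -/
  M : Fin p → Fin q → Fin 5 → K
  inj : ∀ c : Fin q → K, (∀ i, ∑ j, c j • M i j = 0) → c = 0
  surL : ∀ u : Fin p → Fin 5 → K, ∃ c1 c2 : Fin q → K, ∀ i,
    u i = mu s (e5 K 0) (∑ j, c1 j • M i j) + mu s (e5 K 1) (∑ j, c2 j • M i j)
  surW : ∀ u : Fin p → Fin 5 → K, ∃ c1 c2 : Fin q → K, ∀ i,
    u i = mu s (e5 K 2) (∑ j, c1 j • M i j) + mu s (e5 K 3) (∑ j, c2 j • M i j)

/-- the degree one part of the kernel -/
def Stage.W (S : Stage K s) : Submodule K (Fin S.q → Fin 5 → K) where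
  carrier := {ξ | ∀ i, ∑ j, mu s (S.M i j) (ξ j) = 0}
  add_mem' := by
    intro a b ha hb i
    simp only [Pi.add_apply, mu_add_right, Finset.sum_add_distrib, ha i, hb i, add_zero]
  zero_mem' := by intro i; simp
  smul_mem' := by
    intro c a ha i
    simp only [Pi.smul_apply, mu_smul_right, ← Finset.smul_sum, ha i, smul_zero]

/-- matrix of the next step -/
noncomputable def Stage.nM (S : Stage K s) : Fin S.q → Fin (Module.finrank K S.W) → Fin 5 → K :=
  fun j k => (Module.finBasis K S.W k : Fin S.q → Fin 5 → K) j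

lemma Stage.nM_sum (S : Stage K s) (c : Fin (Module.finrank K S.W) → K) (j : Fin S.q) :
    ∑ k, c k • S.nM j k = ((∑ k, c k • Module.finBasis K S.W k : S.W) : Fin S.q → Fin 5 → K) j := by
  rw [Submodule.coe_sum, Finset.sum_apply]
  rfl

lemma Stage.nM_inj (S : Stage K s) (c : Fin (Module.finrank K S.W) → K)
    (h : ∀ j, ∑ k, c k • S.nM j k = 0) : c = 0 := by
  have h1 : (∑ k, c k • Module.finBasis K S.W k : S.W) = 0 := by
    apply Subtype.ext
    funext j
    rw [← S.nM_sum, h j]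
    rfl
  have := (Module.finBasis K S.W).linearIndependent
  rw [Fintype.linearIndependent_iff] at this
  funext k
  exact this c h1 k

lemma Stage.nM_exact (S : Stage K s) (ξ : Fin S.q → Fin 5 → K) (h : ∀ i, ∑ j, mu s (S.M i j) (ξ j) = 0) :
    ∃ c : Fin (Module.finrank K S.W) → K, ∀ j, ξ j = ∑ k, c k • S.nM j k := by
  refine ⟨fun k => (Module.finBasis K S.W).repr ⟨ξ, h⟩ k, fun j => ?_⟩
  rw [S.nM_sum, (Module.finBasis K S.W).sum_repr]

lemma Stage.nM_mem (S : Stage K s) (i : Fin S.p) (k : Fin (Module.finrank K S.W)) :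
    ∑ j, mu s (S.M i j) (S.nM j k) = 0 :=
  (Module.finBasis K S.W k).2 i

lemma mu_e (i j : Fin 5) (h : (i = 0 ∧ j = 2) ∨ (i = 0 ∧ j = 3) ∨ (i = 1 ∧ j = 2) ∨ (i = 1 ∧ j = 3)) :
    mu s (e5 K i) (e5 K j) = 0 ∧ mu s (e5 K j) (e5 K i) = 0 := by
  rcases h with ⟨rfl, rfl⟩ | ⟨rfl, rfl⟩ | ⟨rfl, rfl⟩ | ⟨rfl, rfl⟩ <;>
    constructor <;> (funext k; fin_cases k <;> simp [mu, e5])

/-- correct `ξ` to a cycle using multiples of `e a`, `e b` -/
lemma Stage.correct (S : Stage K s) (a b : Fin 5)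
    (h : ∀ u : Fin S.p → Fin 5 → K, ∃ c1 c2 : Fin S.q → K, ∀ i,
      u i = mu s (e5 K a) (∑ j, c1 j • S.M i j) + mu s (e5 K b) (∑ j, c2 j • S.M i j))
    (ξ : Fin S.q → Fin 5 → K) : ∃ c1 c2 : Fin S.q → K,
      ∀ i, ∑ j, mu s (S.M i j) (ξ j - (c1 j • e5 K a + c2 j • e5 K b)) = 0 := by
  obtain ⟨c1, c2, hc⟩ := h (fun i => ∑ j, mu s (S.M i j) (ξ j))
  refine ⟨c1, c2, fun i => ?_⟩
  have h1 := hc i
  simp only [mu_sub_right, mu_add_right, Finset.sum_sub_distrib, mu_smul_right, Finset.sum_add_distrib]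
  rw [mu_sum_right, mu_sum_right] at h1
  simp only [mu_smul_right] at h1
  rw [h1, sub_eq_zero]
  congr 1 <;> exact Finset.sum_congr rfl (fun j _ => by rw [mu_comm])

lemma Stage.next_sur (S : Stage K s) (a b a' b' : Fin 5)
    (hab : mu s (e5 K a') (e5 K a) = 0 ∧ mu s (e5 K a') (e5 K b) = 0 ∧ mu s (e5 K b') (e5 K a) = 0 ∧
      mu s (e5 K b') (e5 K b) = 0)
    (hfull : ∀ u : Fin 5 → K, ∃ x y : Fin 5 → K, u = mu s (e5 K a') x + mu s (e5 K b') y)
    (h : ∀ u : Fin S.p → Fin 5 → K, ∃ c1 c2 : Fin S.q → K, ∀ i,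
      u i = mu s (e5 K a) (∑ j, c1 j • S.M i j) + mu s (e5 K b) (∑ j, c2 j • S.M i j))
    (u : Fin S.q → Fin 5 → K) : ∃ c1 c2 : Fin (Module.finrank K S.W) → K, ∀ i,
      u i = mu s (e5 K a') (∑ j, c1 j • S.nM i j) + mu s (e5 K b') (∑ j, c2 j • S.nM i j) := by
  choose x y hxy using hfull
  obtain ⟨c1, c2, h1⟩ := S.correct a b h (fun j => x (u j))
  obtain ⟨d1, d2, h2⟩ := S.correct a b h (fun j => y (u j))
  obtain ⟨f1, hf1⟩ := S.nM_exact _ h1
  obtain ⟨f2, hf2⟩ := S.nM_exact _ h2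
  refine ⟨f1, f2, fun i => ?_⟩
  rw [← hf1, ← hf2]
  simp only [mu_sub_right, mu_add_right, mu_smul_right, hab.1, hab.2.1, hab.2.2.1, hab.2.2.2, smul_zero,
    add_zero, sub_zero]
  exact hxy (u i)

lemma fullL (u : Fin 5 → K) : ∃ x y : Fin 5 → K, u = mu s (e5 K 0) x + mu s (e5 K 1) y := by
  refine ⟨![u 0, u 1, 0, 0, u 3], ![0, u 2, 0, 0, u 4], ?_⟩
  funext k
  fin_cases k <;> simp [mu, e5]

lemma fullW (u : Fin 5 → K) : ∃ x y : Fin 5 → K, u = mu s (e5 K 2) x + mu s (e5 K 3) y := by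
  refine ⟨![0, 0, u 3, u 1, u 0], ![0, 0, 0, u 4, u 2], ?_⟩
  funext k
  fin_cases k <;> simp [mu, e5]

/-- the next step of the resolution -/
noncomputable def Stage.next (S : Stage K s) : Stage K s where
  p := S.q
  q := Module.finrank K S.W
  M := S.nM
  inj := S.nM_inj
  surL := S.next_sur 2 3 0 1 ⟨(mu_e 0 2 (by simp)).1, (mu_e 0 3 (by simp)).1, (mu_e 1 2 (by simp)).1,
    (mu_e 1 3 (by simp)).1⟩ fullL S.surW
  surW := S.next_sur 0 1 2 3 ⟨(mu_e 0 2 (by simp)).2, (mu_e 1 2 (by simp)).2, (mu_e 0 3 (by simp)).2,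
    (mu_e 1 3 (by simp)).2⟩ fullW S.surL

lemma sum_e5 (c : Fin 5 → K) : ∑ j, c j • e5 K j = c := by
  funext k
  fin_cases k <;> simp [e5, Fin.sum_univ_succ]

/-- the first step of the resolution -/
noncomputable def stage0 (K : Type*) [Field K] (s : K) : Stage K s where
  p := 1
  q := 5
  M := fun _ j => e5 K j
  inj := by
    intro c h
    rw [← h 0, sum_e5]
  surL := by
    intro u
    obtain ⟨x, y, h⟩ := fullL (s := s) (u 0)
    refine ⟨x, y, fun i => ?_⟩
    rw [Subsingleton.elim i 0, sum_e5, sum_e5]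
    exact h
  surW := by
    intro u
    obtain ⟨x, y, h⟩ := fullW (s := s) (u 0)
    refine ⟨x, y, fun i => ?_⟩
    rw [Subsingleton.elim i 0, sum_e5, sum_e5]
    exact h

/-- all the steps -/
noncomputable def stage (K : Type*) [Field K] (s : K) (n : ℕ) : Stage K s :=
  Nat.rec (stage0 K s) (fun _ S => S.next) n

/-- the matrix of a step -/
def Stage.D (S : Stage K s) : Matrix (Fin S.p) (Fin S.q) (Alg K s) := fun i j => mkA s 0 (S.M i j) 0

lemma Stage.D_mulVec (S : Stage K s) (w : Fin S.q → Alg K s) (i : Fin S.p) :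
    (Matrix.mulVec S.D w) i = mkA s 0 (∑ j, (w j).r • S.M i j) (∑ j, mu s (S.M i j) (w j).v) := by
  have : (Matrix.mulVec S.D w) i = ∑ j, mkA s 0 ((w j).r • S.M i j) (mu s (S.M i j) (w j).v) := by
    simp only [Matrix.mulVec, dotProduct, Stage.D]
    exact Finset.sum_congr rfl (fun j _ => mul_formula _ _)
  rw [this]
  apply Alg.ext
  · rw [sum_r]; simp
  · rw [sum_v]; simp
  · rw [sum_u]; simp

/-- the matrix of the next step -/
noncomputable def Stage.nD (S : Stage K s) : Matrix (Fin S.q) (Fin (Module.finrank K S.W)) (Alg K s) :=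
  fun j k => mkA s 0 (S.nM j k) 0

lemma Stage.D_comp (S : Stage K s) : S.D * S.nD = 0 := by
  funext i k
  have : (S.D * S.nD) i k = ∑ j, mkA s 0 (S.M i j) 0 * mkA s 0 (S.nM j k) 0 := rfl
  rw [this]
  simp only [mul_formula, mkA_r, mkA_v, zero_smul]
  apply Alg.ext
  · rw [sum_r]; simp
  · rw [sum_v]; simp
  · rw [sum_u]
    simp only [mkA_u]
    rw [S.nM_mem]
    rfl

lemma Stage.D_exact (S : Stage K s) (v : Fin S.q → Alg K s) (h : Matrix.mulVec S.D v = 0) :
    ∃ w : Fin (Module.finrank K S.W) → Alg K s, Matrix.mulVec S.nD w = v := by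
  have h0 : ∀ i, mkA s 0 (∑ j, (v j).r • S.M i j) (∑ j, mu s (S.M i j) (v j).v) = 0 := by
    intro i
    rw [← S.D_mulVec, h]
    rfl
  have hr : (fun j => (v j).r) = 0 := S.inj _ (fun i => by
    have := congrArg Alg.v (h0 i)
    simpa using this)
  obtain ⟨c, hc⟩ := S.nM_exact (fun j => (v j).v) (fun i => by
    have := congrArg Alg.u (h0 i)
    simpa using this)
  obtain ⟨c1, c2, hcc⟩ := S.next.surL (fun j => (v j).u)
  refine ⟨fun k => mkA s (c k) (c1 k • e5 K 0 + c2 k • e5 K 1) 0, ?_⟩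
  funext j
  have h1 : (Matrix.mulVec S.nD
      (fun k => mkA s (c k) (c1 k • e5 K 0 + c2 k • e5 K 1) 0)) j = _ := S.next.D_mulVec _ j
  rw [h1]
  apply Alg.ext
  · have := congrFun hr j
    exact this.symm
  · simp only [mkA_r, mkA_v]
    exact (hc j).symm
  · simp only [mkA_v, mkA_u]
    have h2 : (v j).u = mu s (e5 K 0) (∑ k, c1 k • S.next.M j k) + mu s (e5 K 1) (∑ k, c2 k • S.next.M j k) :=
      hcc j
    rw [h2, mu_sum_right, mu_sum_right, ← Finset.sum_add_distrib]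
    apply Finset.sum_congr rfl
    intro k _
    rw [mu_add_right, mu_smul_right, mu_smul_right, mu_smul_right, mu_smul_right, mu_comm (e5 K 0), mu_comm (e5 K 1)]

/-- the residue field of `R_s` has a linear resolution -/
theorem linear_resolution (K : Type*) [Field K] (s : K) :
    ∃ b : ℕ → ℕ, ∃ D : (i : ℕ) → Matrix (Fin (b i)) (Fin (b (i + 1))) (Alg K s),
      (∀ i j k, ∃ x : Fin 5 → K, D i j k = mkA s 0 x 0) ∧ b 0 = 1 ∧
      (∀ v : Fin (b 0) → Alg K s,
        (∃ w, Matrix.mulVec (D 0) w = v) ↔ ∀ j, v j ∈ Ideal.span (Set.range (ev s))) ∧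
      (∀ i, D i * D (i + 1) = 0) ∧
      (∀ i (v : Fin (b (i + 1)) → Alg K s), Matrix.mulVec (D i) v = 0 → ∃ w, Matrix.mulVec (D (i + 1)) w = v) := by
  refine ⟨fun i => (stage K s i).p, fun i => (stage K s i).D, ?_, rfl, ?_, ?_, ?_⟩
  · intro i j k
    exact ⟨(stage K s i).M j k, rfl⟩
  · intro v
    constructor
    · rintro ⟨w, rfl⟩ j
      exact (show (∑ t : Fin 5, ev s t * w t) ∈ Ideal.span (Set.range (ev s)) from
        Ideal.sum_mem _ (fun t _ => Ideal.mul_mem_right _ _ (Ideal.subset_span ⟨t, rfl⟩)))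
    · intro h
      have h0 := h (0 : Fin 1)
      rw [Ideal.mem_span_range_iff_exists_fun] at h0
      obtain ⟨c, hc⟩ := h0
      refine ⟨c, ?_⟩
      funext j
      have hj : j = (0 : Fin 1) := Subsingleton.elim (α := Fin 1) _ _
      subst hj
      rw [← hc]
      have : (Matrix.mulVec ((stage K s 0).D) c) (0 : Fin 1) = ∑ t : Fin 5, ev s t * c t := rfl
      refine this.trans ?_
      exact Finset.sum_congr rfl (fun t _ => mul_comm _ _)
  · intro i
    exact (stage K s i).D_comp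
  · intro i v hv
    exact (stage K s i).D_exact v hv

end

end Pool.Agent.H58R2.LGQ
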